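import Pool.Agent.Kummer.Series

/-!
# Calculus of power series in characteristic two
-/

set_option autoImplicit false
set_option linter.unusedSectionVars false

namespace Pool.Agent.Kummer

open MvPowerSeries

variable {σ : Type*} [Fintype σ] [DecidableEq σ] {k : Type*} [Field k] [CharP k 2]

theorem two_eq_zero' : (2 : MvPowerSeries σ k) = 0 := by
  have : (2 : MvPowerSeries σ k) = C (2 : k) := by
    rw [map_ofNat]
  rw [this, CharTwo.two_eq_zero, map_zero]

theorem add_self' (f : MvPowerSeries σ k) : f + f = 0 := by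
  have h := two_eq_zero' (σ := σ) (k := k)
  linear_combination f * h

theorem neg_eq' (f : MvPowerSeries σ k) : -f = f := by
  have h := two_eq_zero' (σ := σ) (k := k)
  linear_combination -f * h

theorem sub_eq_add' (f g : MvPowerSeries σ k) : f - g = f + g := by
  rw [sub_eq_add_neg, neg_eq']

/-- The partial derivative. -/
noncomputable abbrev pd (i : σ) : Derivation k (MvPowerSeries σ k) (MvPowerSeries σ k) :=
  MvPowerSeries.pderiv k i

theorem pd_mul (i : σ) (f g : MvPowerSeries σ k) :
    pd i (f * g) = f * pd i g + g * pd i f := by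
  rw [Derivation.leibniz]; rfl

theorem pd_X_self (i : σ) : pd i (X i : MvPowerSeries σ k) = 1 := pderiv_X_self

theorem pd_X_of_ne {i j : σ} (h : j ≠ i) : pd i (X j : MvPowerSeries σ k) = 0 := pderiv_X_of_ne h

theorem pd_pd_self (i : σ) (f : MvPowerSeries σ k) : pd i (pd i f) = 0 := by
  ext n
  rw [coeff_pderiv, coeff_pderiv, mul_assoc]
  have h2 : ((((n + Finsupp.single i 1 : σ →₀ ℕ) i : ℕ) : k) + 1) * ((n i : k) + 1) = 0 := by
    have h3 : Even ((n i + 1 + 1) * (n i + 1)) := by
      rw [mul_comm]; exact Nat.even_mul_succ_self _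
    obtain ⟨m, hm⟩ := h3
    have h4 : (((n i + 1 + 1) * (n i + 1) : ℕ) : k) = 0 := by
      rw [hm, Nat.cast_add, CharTwo.add_self_eq_zero]
    simpa using h4
  simp only [Finsupp.coe_add, Pi.add_apply, Finsupp.single_eq_same, Nat.cast_add, Nat.cast_one]
    at h2 ⊢
  rw [h2, mul_zero, map_zero]

theorem pd_comm (i j : σ) (f : MvPowerSeries σ k) : pd i (pd j f) = pd j (pd i f) := by
  rcases eq_or_ne i j with rfl | hij
  · rfl
  ext n
  simp only [coeff_pderiv, Finsupp.coe_add, Pi.add_apply, Finsupp.single_eq_of_ne hij,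
    Finsupp.single_eq_of_ne hij.symm, add_zero]
  rw [add_assoc, add_assoc, add_comm (Finsupp.single i 1)]
  ring

/-- The part of `f` which is even in the variable `X i`. -/
noncomputable def ev (i : σ) (f : MvPowerSeries σ k) : MvPowerSeries σ k := f + X i * pd i f

theorem ev_zero (i : σ) : ev i (0 : MvPowerSeries σ k) = 0 := by simp [ev]

theorem ev_add (i : σ) (f g : MvPowerSeries σ k) : ev i (f + g) = ev i f + ev i g := by
  simp only [ev, map_add]; ring

theorem ev_sum {ι : Type*} (i : σ) (s : Finset ι) (f : ι → MvPowerSeries σ k) :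
    ev i (∑ j ∈ s, f j) = ∑ j ∈ s, ev i (f j) := by
  simp only [ev, map_sum, Finset.mul_sum, Finset.sum_add_distrib]

theorem pd_ev_self (i : σ) (f : MvPowerSeries σ k) : pd i (ev i f) = 0 := by
  rw [ev, map_add, pd_mul, pd_pd_self, pd_X_self, mul_zero, zero_add, mul_one, add_self']

theorem pd_ev_of_ne {i j : σ} (h : j ≠ i) (f : MvPowerSeries σ k) :
    pd j (ev i f) = ev i (pd j f) := by
  rw [ev, ev, map_add, pd_mul, pd_X_of_ne h.symm, mul_zero, add_zero, pd_comm]

theorem ev_pd_self (i : σ) (f : MvPowerSeries σ k) : ev i (pd i f) = pd i f := by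
  rw [ev, pd_pd_self, mul_zero, add_zero]

theorem pd_X_mul_ev_self (i : σ) (f : MvPowerSeries σ k) : pd i (X i * ev i f) = ev i f := by
  rw [pd_mul, pd_ev_self, pd_X_self, mul_zero, zero_add, mul_one]

theorem pd_X_mul_of_ne {i j : σ} (h : j ≠ i) (f : MvPowerSeries σ k) :
    pd j (X i * f) = X i * pd j f := by
  rw [pd_mul, pd_X_of_ne h.symm, mul_zero, add_zero]

section Ideal

variable {J : Ideal (MvPowerSeries σ k)} (hJ : ∀ i, ∀ f ∈ J, pd i f ∈ J)

include hJ

theorem ev_mem {i : σ} {f : MvPowerSeries σ k} (hf : f ∈ J) : ev i f ∈ J :=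
  J.add_mem hf (J.mul_mem_left _ (hJ i f hf))

/-- A series all of whose derivatives lie in `J` is congruent modulo `J` to a series with
vanishing derivatives. -/
theorem exists_const (f : MvPowerSeries σ k) (hf : ∀ i, pd i f ∈ J) :
    ∃ F : MvPowerSeries σ k, (∀ i, pd i F = 0) ∧ f - F ∈ J := by
  have key : ∀ U : Finset σ, ∃ F : MvPowerSeries σ k, (∀ i ∈ U, pd i F = 0) ∧
      (∀ i, pd i F ∈ J) ∧ f - F ∈ J := by
    intro U
    induction U using Finset.induction_on with
    | empty => exact ⟨f, by simp, hf, by simp⟩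
    | insert i U _ ih =>
      obtain ⟨F, h1, h2, h3⟩ := ih
      refine ⟨ev i F, ?_, ?_, ?_⟩
      · intro j hj
        rcases eq_or_ne j i with rfl | hji
        · exact pd_ev_self _ _
        · rw [pd_ev_of_ne hji, h1 j (Finset.mem_of_mem_insert_of_ne hj hji), ev_zero]
      · intro j
        rcases eq_or_ne j i with rfl | hji
        · rw [pd_ev_self]; exact J.zero_mem
        · rw [pd_ev_of_ne hji]
          exact ev_mem hJ (h2 j)
      · have : f - ev i F = (f - F) - X i * pd i F := by rw [ev]; ring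
        rw [this]
        exact J.sub_mem h3 (J.mul_mem_left _ (h2 i))
  obtain ⟨F, h1, _, h3⟩ := key Finset.univ
  exact ⟨F, fun i => h1 i (Finset.mem_univ i), h3⟩

end Ideal

/-- The series whose coefficient at `d` is the coefficient of `f` at `2 d`. -/
noncomputable def half (f : MvPowerSeries σ k) : MvPowerSeries σ k :=
  ofCoeff fun d => coeff (2 • d) f

/-- Substitution of the squares of the variables. -/
noncomputable abbrev sq : MvPowerSeries σ k →ₐ[k] MvPowerSeries σ k :=
  MvPowerSeries.expand 2 two_ne_zero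

theorem exists_smul_or (d : σ →₀ ℕ) : (∃ e : σ →₀ ℕ, d = 2 • e) ∨ ∃ i, ¬ 2 ∣ d i := by
  by_cases h : ∃ i, ¬ 2 ∣ d i
  · exact Or.inr h
  · left
    push Not at h
    refine ⟨Finsupp.equivFunOnFinite.symm fun i => d i / 2, ?_⟩
    ext i
    simp [Nat.mul_div_cancel' (h i)]

theorem eq_sq_half (f : MvPowerSeries σ k) (hf : ∀ i, pd i f = 0) : f = sq (half f) := by
  ext d
  rcases exists_smul_or d with ⟨e, rfl⟩ | ⟨i, hi⟩
  · rw [coeff_expand_smul]; rfl
  · rw [coeff_expand_of_not_dvd _ _ _ hi]
    have h1 : d i ≠ 0 := by rintro h; rw [h] at hi; simp at hi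
    have h2 : d - Finsupp.single i 1 + Finsupp.single i 1 = d := by
      refine tsub_add_cancel_of_le ?_
      rw [Finsupp.single_le_iff]; omega
    have h3 := congrArg (coeff (d - Finsupp.single i 1)) (hf i)
    rw [coeff_pderiv, h2, map_zero] at h3
    have h4 : (((d - Finsupp.single i 1 : σ →₀ ℕ) i : ℕ) : k) + 1 = 1 := by
      have h5 : Even ((d - Finsupp.single i 1 : σ →₀ ℕ) i) := by
        simp only [Finsupp.coe_tsub, Pi.sub_apply, Finsupp.single_eq_same]
        rw [← even_iff_two_dvd, Nat.not_even_iff_odd] at hi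
        obtain ⟨m, hm⟩ := hi
        exact ⟨m, by omega⟩
      obtain ⟨m, hm⟩ := h5
      rw [hm, Nat.cast_add, CharTwo.add_self_eq_zero, zero_add]
    rwa [h4, mul_one] at h3

theorem half_sq (f : MvPowerSeries σ k) : half (sq f) = f := by
  ext d
  change coeff (2 • d) (sq f) = _
  rw [coeff_expand_smul]

theorem half_add (f g : MvPowerSeries σ k) : half (f + g) = half f + half g := by
  ext d; rfl

theorem half_sum {ι : Type*} (s : Finset ι) (f : ι → MvPowerSeries σ k) :
    half (∑ i ∈ s, f i) = ∑ i ∈ s, half (f i) := by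
  classical
  induction s using Finset.induction_on with
  | empty => ext d; rfl
  | insert i s hi ih => rw [Finset.sum_insert hi, Finset.sum_insert hi, half_add, ih]

theorem half_sq_mul (c f : MvPowerSeries σ k) : half (sq c * f) = c * half f := by
  ext d
  change coeff (2 • d) (sq c * f) = _
  rw [coeff_mul, coeff_mul]
  symm
  refine Finset.sum_of_injOn (fun q => (2 • q.1, 2 • q.2)) ?_ ?_ ?_ ?_
  · rintro ⟨a, b⟩ _ ⟨a', b'⟩ _ h
    simp only [Prod.mk.injEq] at h
    have h1 : ∀ x y : σ →₀ ℕ, 2 • x = 2 • y → x = y := by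
      intro x y hxy
      ext i
      have := DFunLike.congr_fun hxy i
      simpa using this
    rw [h1 _ _ h.1, h1 _ _ h.2]
  · rintro ⟨a, b⟩ h
    simp only [Finset.mem_coe, Finset.HasAntidiagonal.mem_antidiagonal] at h ⊢
    rw [← smul_add, h]
  · rintro ⟨a, b⟩ h h'
    rw [Finset.HasAntidiagonal.mem_antidiagonal] at h
    rcases exists_smul_or a with ⟨e, rfl⟩ | ⟨i, hi⟩
    · exfalso
      apply h'
      have hle : e ≤ d := by
        intro i
        have := DFunLike.congr_fun h i
        simp only [Finsupp.coe_add, Finsupp.coe_smul, Pi.add_apply, Pi.smul_apply,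
          smul_eq_mul] at this
        omega
      refine ⟨(e, d - e), ?_, ?_⟩
      · simp only [Finset.mem_coe, Finset.HasAntidiagonal.mem_antidiagonal]
        exact add_tsub_cancel_of_le hle
      · simp only [Prod.mk.injEq, true_and]
        ext i
        have h1 := DFunLike.congr_fun h i
        have h2 := hle i
        simp only [Finsupp.coe_add, Finsupp.coe_smul, Pi.add_apply, Pi.smul_apply,
          smul_eq_mul, Finsupp.coe_tsub, Pi.sub_apply] at h1 ⊢
        omega
    · rw [coeff_expand_of_not_dvd _ _ _ hi, zero_mul]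
  · rintro ⟨a, b⟩ _
    change _ = coeff (2 • a) (sq c) * coeff (2 • b) f
    rw [coeff_expand_smul]
    rfl

section Homotopy

/-- The differential of the complex `⨁ R A^α`, `d = ∑ A_i ∂_i`. -/
noncomputable def Dop (s : (σ →₀ ℕ) → MvPowerSeries σ k) (β : σ →₀ ℕ) : MvPowerSeries σ k :=
  ∑ i, if β i = 0 then 0 else pd i (s (β - Finsupp.single i 1))

/-- The homotopy in the direction `i`. -/
noncomputable def Hop (i : σ) (s : (σ →₀ ℕ) → MvPowerSeries σ k) (α : σ →₀ ℕ) :
    MvPowerSeries σ k :=
  X i * ev i (s (α + Finsupp.single i 1))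

/-- The projector in the direction `i`. -/
noncomputable def Eop (i : σ) (s : (σ →₀ ℕ) → MvPowerSeries σ k) (α : σ →₀ ℕ) :
    MvPowerSeries σ k :=
  if α i = 0 then ev i (s α) else 0

theorem Dop_add (s t : (σ →₀ ℕ) → MvPowerSeries σ k) (β : σ →₀ ℕ) :
    Dop (fun α => s α + t α) β = Dop s β + Dop t β := by
  rw [Dop, Dop, Dop, ← Finset.sum_add_distrib]
  refine Finset.sum_congr rfl fun i _ => ?_
  split_ifs
  · rw [add_zero]
  · rw [map_add]

theorem homotopy (i : σ) (s : (σ →₀ ℕ) → MvPowerSeries σ k) (α : σ →₀ ℕ) :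
    Dop (Hop i s) α + Hop i (Dop s) α = s α + Eop i s α := by
  have h1 : Hop i (Dop s) α = ∑ j, if (α + Finsupp.single i 1 : σ →₀ ℕ) j = 0 then 0 else
      X i * ev i (pd j (s (α + Finsupp.single i 1 - Finsupp.single j 1))) := by
    rw [Hop, Dop, ev_sum, Finset.mul_sum]
    refine Finset.sum_congr rfl fun j _ => ?_
    split_ifs
    · rw [ev_zero, mul_zero]
    · rfl
  rw [h1, Dop, ← Finset.sum_add_distrib, Finset.sum_eq_single i]
  · have h0 : (α + Finsupp.single i 1 : σ →₀ ℕ) i ≠ 0 := by simp
    rw [if_neg h0, add_tsub_cancel_right, ev_pd_self, Eop]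
    by_cases hi : α i = 0
    · rw [if_pos hi, if_pos hi, zero_add, ev, ← add_assoc, add_self', zero_add]
    · rw [if_neg hi, if_neg hi, Hop, pd_X_mul_ev_self, tsub_add_cancel_of_le (by
        rw [Finsupp.single_le_iff]; omega), ev, add_assoc, add_self']
  · intro j _ hji
    have h2 : (α + Finsupp.single i 1 : σ →₀ ℕ) j = α j := by
      simp [Finsupp.single_eq_of_ne hji]
    rw [h2]
    by_cases hj : α j = 0
    · rw [if_pos hj, if_pos hj, add_zero]
    · rw [if_neg hj, if_neg hj, Hop]
      have h3 : α - Finsupp.single j 1 + Finsupp.single i 1 =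
          α + Finsupp.single i 1 - Finsupp.single j 1 := by
        rw [tsub_add_eq_add_tsub]
        rw [Finsupp.single_le_iff]; omega
      rw [h3, pd_X_mul_of_ne hji, pd_ev_of_ne hji, add_self']
  · intro h; exact absurd (Finset.mem_univ _) h

theorem Dop_Eop (i : σ) (s : (σ →₀ ℕ) → MvPowerSeries σ k) (β : σ →₀ ℕ) :
    Dop (Eop i s) β = Eop i (Dop s) β := by
  have h1 : Eop i (Dop s) β = ∑ j, if β j = 0 then 0 else if β i = 0 then
      ev i (pd j (s (β - Finsupp.single j 1))) else 0 := by
    rw [Eop]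
    by_cases hi : β i = 0
    · rw [if_pos hi, Dop, ev_sum]
      refine Finset.sum_congr rfl fun j _ => ?_
      split_ifs
      · rw [ev_zero]
      · rfl
    · rw [if_neg hi]
      symm
      refine Finset.sum_eq_zero fun j _ => ?_
      split_ifs <;> rfl
  rw [h1, Dop]
  refine Finset.sum_congr rfl fun j _ => ?_
  by_cases hj : β j = 0
  · rw [if_pos hj, if_pos hj]
  · rw [if_neg hj, if_neg hj]
    rcases eq_or_ne j i with rfl | hji
    · rw [if_neg hj, Eop]
      split_ifs
      · exact pd_ev_self _ _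
      · rw [map_zero]
    · have h2 : (β - Finsupp.single j 1 : σ →₀ ℕ) i = β i := by
        simp [Finsupp.single_eq_of_ne hji.symm]
      rw [Eop, h2]
      split_ifs
      · rw [pd_ev_of_ne hji]
      · rw [map_zero]

/-- Exactness of the complex modulo an ideal stable under the derivations, in positive degrees. -/
theorem exact_complex {J : Ideal (MvPowerSeries σ k)} (hJ : ∀ i, ∀ f ∈ J, pd i f ∈ J)
    {n : ℕ} (hn : n ≠ 0) (s : (σ →₀ ℕ) → MvPowerSeries σ k)
    (hs : ∀ β : σ →₀ ℕ, β.degree = n + 1 → Dop s β ∈ J) :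
    ∃ t : (σ →₀ ℕ) → MvPowerSeries σ k, ∀ α : σ →₀ ℕ, α.degree = n → s α - Dop t α ∈ J := by
  have key : ∀ U : Finset σ, ∃ t s' : (σ →₀ ℕ) → MvPowerSeries σ k,
      (∀ α : σ →₀ ℕ, α.degree = n → s α - Dop t α - s' α ∈ J) ∧
      (∀ β : σ →₀ ℕ, β.degree = n + 1 → Dop s' β ∈ J) ∧
      (∀ α : σ →₀ ℕ, (∃ i ∈ U, α i ≠ 0) → s' α = 0) := by
    intro U
    induction U using Finset.induction_on with
    | empty =>
      refine ⟨fun _ => 0, s, ?_, hs, by simp⟩
      intro α _
      have : Dop (fun _ => (0 : MvPowerSeries σ k)) α = 0 := by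
        rw [Dop]
        refine Finset.sum_eq_zero fun j _ => ?_
        split_ifs
        · rfl
        · rw [map_zero]
      rw [this, sub_zero, sub_self]
      exact J.zero_mem
    | insert i U _ ih =>
      obtain ⟨t, s', h1, h2, h3⟩ := ih
      refine ⟨fun α => t α + Hop i s' α, Eop i s', ?_, ?_, ?_⟩
      · intro α hα
        have h4 := homotopy i s' α
        have h5 : s α - Dop (fun α => t α + Hop i s' α) α - Eop i s' α =
            (s α - Dop t α - s' α) + Hop i (Dop s') α := by
          rw [Dop_add]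
          have h6 := add_self' (Eop i s' α)
          linear_combination (-1 : MvPowerSeries σ k) * h4 - h6
        rw [h5]
        refine J.add_mem (h1 α hα) (J.mul_mem_left _ (ev_mem hJ (h2 _ ?_)))
        rw [map_add, Finsupp.degree_single, hα]
      · intro β hβ
        rw [Dop_Eop, Eop]
        split_ifs
        · exact ev_mem hJ (h2 β hβ)
        · exact J.zero_mem
      · rintro α ⟨j, hj, hαj⟩
        rw [Eop]
        split_ifs with hi
        · rcases eq_or_ne j i with rfl | hji
          · exact absurd hi hαj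
          · rw [h3 α ⟨j, Finset.mem_of_mem_insert_of_ne hj hji, hαj⟩, ev_zero]
        · rfl
  obtain ⟨t, s', h1, _, h3⟩ := key Finset.univ
  refine ⟨t, fun α hα => ?_⟩
  have h4 : s' α = 0 := by
    refine h3 α ?_
    by_contra hcon
    push Not at hcon
    have : α = 0 := by
      ext i
      exact hcon i (Finset.mem_univ i)
    rw [this, map_zero] at hα
    exact hn hα.symm
  have := h1 α hα
  rwa [h4, sub_zero] at this

end Homotopy

end Pool.Agent.Kummer
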