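import Pool.Agent.Kummer.Series

/-!
# Quasi-regular families
-/

set_option autoImplicit false
set_option linter.unusedSectionVars false

namespace Pool.Agent.Kummer

open MvPowerSeries

variable {σ : Type*} [Fintype σ] [DecidableEq σ] {A : Type*} [CommRing A]

/-- Exponents of total degree `n`. -/
def dg (σ : Type*) [Fintype σ] [DecidableEq σ] (n : ℕ) : Finset (σ →₀ ℕ) :=
  Finset.finsuppAntidiag Finset.univ n

theorem mem_dg {n : ℕ} {α : σ →₀ ℕ} : α ∈ dg σ n ↔ α.degree = n := by
  rw [dg, Finset.mem_finsuppAntidiag, Finsupp.degree_eq_sum]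
  simp

/-- The monomial `∏ x_i ^ α_i`. -/
noncomputable def mon (x : σ → A) (α : σ →₀ ℕ) : A := α.prod fun i e => x i ^ e

theorem mon_add_single (x : σ → A) (α : σ →₀ ℕ) (i : σ) :
    mon x (α + Finsupp.single i 1) = x i * mon x α := by
  rw [mon, Finsupp.prod_add_index' (by simp) (by intro a b c; rw [pow_add]),
    Finsupp.prod_single_index (by simp), pow_one, mul_comm, mon]

theorem mon_zero (x : σ → A) : mon x 0 = 1 := by simp [mon]

theorem mon_single (x : σ → A) (i : σ) : mon x (Finsupp.single i 1) = x i := by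
  rw [mon, Finsupp.prod_single_index (by simp), pow_one]

theorem mon_mem (x : σ → A) (α : σ →₀ ℕ) :
    mon x α ∈ Ideal.span (Set.range x) ^ α.degree := by
  rw [mon, Finsupp.prod]
  have h : Ideal.span (Set.range x) ^ α.degree =
      ∏ i ∈ α.support, Ideal.span (Set.range x) ^ α i := by
    rw [Finset.prod_pow_eq_pow_sum]
    rfl
  rw [h]
  exact Ideal.prod_mem_prod fun i _ =>
    Ideal.pow_mem_pow (Ideal.subset_span (Set.mem_range_self i)) _

/-- The form of degree `n` with coefficients `s`, evaluated at `x`. -/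
noncomputable def evn (x : σ → A) (n : ℕ) (s : (σ →₀ ℕ) → A) : A :=
  ∑ α ∈ dg σ n, s α * mon x α

theorem evn_reindex (x : σ → A) (n : ℕ) (u : σ → (σ →₀ ℕ) → A) :
    ∑ α ∈ dg σ n, ∑ i, u i α * (x i * mon x α) =
      evn x (n + 1) fun β => ∑ i, if β i = 0 then 0 else u i (β - Finsupp.single i 1) := by
  rw [evn]
  simp only [Finset.sum_mul]
  rw [Finset.sum_comm, Finset.sum_comm (s := dg σ (n + 1))]
  refine Finset.sum_congr rfl fun i _ => ?_
  refine Finset.sum_of_injOn (fun α => α + Finsupp.single i 1) ?_ ?_ ?_ ?_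
  · intro a _ b _ h
    exact add_right_cancel h
  · intro a ha
    rw [Finset.mem_coe, mem_dg] at ha ⊢
    rw [map_add, Finsupp.degree_single, ha]
  · intro β hβ hβ'
    rw [mem_dg] at hβ
    rw [if_pos, zero_mul]
    by_contra hne
    apply hβ'
    have hle : Finsupp.single i 1 ≤ β := by
      rw [Finsupp.single_le_iff]; omega
    refine ⟨β - Finsupp.single i 1, ?_, tsub_add_cancel_of_le hle⟩
    rw [Finset.mem_coe, mem_dg]
    have h1 : (β - Finsupp.single i 1 + Finsupp.single i 1).degree = β.degree := by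
      rw [tsub_add_cancel_of_le hle]
    rw [map_add, Finsupp.degree_single, hβ] at h1
    omega
  · intro α _
    have h0 : (α + Finsupp.single i 1 : σ →₀ ℕ) i ≠ 0 := by simp
    rw [if_neg h0, add_tsub_cancel_right, mon_add_single]

theorem mon_mem' (x : σ → A) {n : ℕ} {α : σ →₀ ℕ} (hα : α.degree = n) :
    mon x α ∈ Ideal.span (Set.range x) ^ n := by
  rw [← hα]
  exact mon_mem x α

theorem evn_add (x : σ → A) (n : ℕ) (s t : (σ →₀ ℕ) → A) :
    evn x n (fun α => s α + t α) = evn x n s + evn x n t := by
  simp only [evn, add_mul, Finset.sum_add_distrib]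

theorem evn_smul (x : σ → A) (n : ℕ) (c : A) (s : (σ →₀ ℕ) → A) :
    evn x n (fun α => c * s α) = c * evn x n s := by
  simp only [evn, mul_assoc, Finset.mul_sum]

theorem evn_mem (x : σ → A) (n : ℕ) (s : (σ →₀ ℕ) → A) :
    evn x n s ∈ Ideal.span (Set.range x) ^ n := by
  refine Ideal.sum_mem _ fun α hα => Ideal.mul_mem_left _ _ ?_
  rw [mem_dg] at hα
  rw [← hα]
  exact mon_mem x α

theorem evn_mem_of (x : σ → A) (n : ℕ) (s : (σ →₀ ℕ) → A) (J : Ideal A)
    (hs : ∀ α : σ →₀ ℕ, α.degree = n → s α ∈ J) :
    evn x n s ∈ J * Ideal.span (Set.range x) ^ n := by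
  refine Ideal.sum_mem _ fun α hα => ?_
  rw [mem_dg] at hα
  refine Ideal.mul_mem_mul (hs α hα) ?_
  rw [← hα]
  exact mon_mem x α

theorem exists_evn (x : σ → A) (n : ℕ) {f : A} (hf : f ∈ Ideal.span (Set.range x) ^ n) :
    ∃ s, f = evn x n s := by
  classical
  induction n generalizing f with
  | zero =>
    refine ⟨fun _ => f, ?_⟩
    rw [evn, Finset.sum_eq_single 0]
    · rw [mon_zero, mul_one]
    · intro α hα h0
      rw [mem_dg] at hα
      exact absurd ((Finsupp.degree_eq_zero_iff α).mp hα) h0
    · intro h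
      exfalso
      apply h
      rw [mem_dg]; simp
  | succ n ih =>
    rw [pow_succ'] at hf
    induction hf using Submodule.mul_induction_on' with
    | mem_mul_mem a ha b hb =>
      obtain ⟨c, rfl⟩ := (Ideal.mem_span_range_iff_exists_fun).mp ha
      obtain ⟨s, rfl⟩ := ih hb
      refine ⟨fun β => ∑ i, if β i = 0 then 0 else c i * s (β - Finsupp.single i 1), ?_⟩
      rw [← evn_reindex x n (fun i α => c i * s α), evn, Finset.sum_mul_sum, Finset.sum_comm]
      refine Finset.sum_congr rfl fun α _ => Finset.sum_congr rfl fun i _ => ?_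
      ring
    | add a _ b _ ha hb =>
      obtain ⟨s, hs⟩ := ha
      obtain ⟨t, ht⟩ := hb
      exact ⟨fun α => s α + t α, by rw [evn_add, hs, ht]⟩

/-- Quasi-regular families: a form of degree `n` in the `x_i` which lies in the `(n+1)`-st power of
the ideal generated by the `x_i` has its coefficients in this ideal. -/
def QR (x : σ → A) : Prop :=
  ∀ (n : ℕ) (s : (σ →₀ ℕ) → A), evn x n s ∈ Ideal.span (Set.range x) ^ (n + 1) →
    ∀ α : σ →₀ ℕ, α.degree = n → s α ∈ Ideal.span (Set.range x)

/-- Quasi-regularity depends only on the ideal (and the number of generators). -/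
theorem QR.of_span_eq {a b : σ → A} (hb : QR b)
    (hab : Ideal.span (Set.range a) = Ideal.span (Set.range b)) : QR a := by
  classical
  intro n s hs α hα
  set I := Ideal.span (Set.range b) with hI
  rw [hab] at hs ⊢
  have h1 : ∀ β : dg σ n, ∃ c, mon b β.1 = evn a n c := fun β => by
    refine exists_evn a n ?_
    rw [hab]
    exact mon_mem' b (mem_dg.mp β.2)
  choose c hc using h1
  have h2 : ∀ β : dg σ n, ∃ c', mon a β.1 = evn b n c' := fun β => by
    refine exists_evn b n ?_
    rw [← hI, ← hab]
    exact mon_mem' a (mem_dg.mp β.2)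
  choose c' hc' using h2
  let P : Matrix (dg σ n) (dg σ n) (A ⧸ I) := fun β α => Ideal.Quotient.mk I (c β α.1)
  let Q : Matrix (dg σ n) (dg σ n) (A ⧸ I) := fun β α => Ideal.Quotient.mk I (c' β α.1)
  have hsub : ∀ f : (σ →₀ ℕ) → A, ∑ α ∈ dg σ n, f α = ∑ α : dg σ n, f α.1 := fun f =>
    (Finset.sum_coe_sort (dg σ n) f).symm
  have hPQ : P * Q = 1 := by
    ext β γ
    rw [Matrix.mul_apply]
    have h3 : evn b n (fun γ => ∑ α : dg σ n, c β α.1 * c' α γ - if γ = β.1 then 1 else 0) ∈
        I ^ (n + 1) := by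
      have h4 : evn b n (fun γ => ∑ α : dg σ n, c β α.1 * c' α γ - if γ = β.1 then 1 else 0) = 0 := by
        have h5 : evn b n (fun γ => ∑ α : dg σ n, c β α.1 * c' α γ) = mon b β.1 := by
          rw [hc β, evn]
          simp only [Finset.sum_mul]
          rw [Finset.sum_comm, evn, hsub]
          refine Finset.sum_congr rfl fun α _ => ?_
          rw [hc' α, evn, Finset.mul_sum]
          refine Finset.sum_congr rfl fun γ _ => ?_
          ring
        have h6 : evn b n (fun γ => if γ = β.1 then 1 else 0) = mon b β.1 := by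
          rw [evn, Finset.sum_eq_single β.1]
          · rw [if_pos rfl, one_mul]
          · intro γ _ hγ
            rw [if_neg hγ, zero_mul]
          · intro h; exact absurd β.2 h
        have h7 := evn_add b n
          (fun γ => ∑ α : dg σ n, c β α.1 * c' α γ - if γ = β.1 then 1 else 0)
          (fun γ => if γ = β.1 then 1 else 0)
        simp only [sub_add_cancel] at h7
        rw [h5, h6] at h7
        exact (add_eq_right.mp h7.symm)
      rw [h4]; exact Ideal.zero_mem _
    have h8 := hb n _ h3 γ.1 (mem_dg.mp γ.2)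
    rw [← hI] at h8
    have h9 := Ideal.Quotient.eq_zero_iff_mem.mpr h8
    rw [map_sub, map_sum, sub_eq_zero] at h9
    simp only [map_mul] at h9
    change ∑ j, Ideal.Quotient.mk I (c β j.1) * Ideal.Quotient.mk I (c' j γ.1) = _
    rw [h9, Matrix.one_apply]
    by_cases hβγ : β = γ
    · subst hβγ; simp
    · rw [if_neg (fun h => hβγ (Subtype.ext h.symm)), if_neg hβγ, map_zero]
  have hQP : Q * P = 1 := mul_eq_one_comm.mp hPQ
  have h3 : evn b n (fun γ => ∑ α : dg σ n, s α.1 * c' α γ) ∈ I ^ (n + 1) := by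
    have h4 : evn b n (fun γ => ∑ α : dg σ n, s α.1 * c' α γ) = evn a n s := by
      rw [evn]
      simp only [Finset.sum_mul]
      rw [Finset.sum_comm, evn, hsub]
      refine Finset.sum_congr rfl fun α _ => ?_
      rw [hc' α, evn, Finset.mul_sum]
      refine Finset.sum_congr rfl fun γ _ => ?_
      ring
    rw [h4]; exact hs
  let v : dg σ n → A ⧸ I := fun α => Ideal.Quotient.mk I (s α.1)
  have h5 : Matrix.vecMul v Q = 0 := by
    ext γ
    have h6 := hb n _ h3 γ.1 (mem_dg.mp γ.2)
    rw [← hI] at h6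
    have h7 := Ideal.Quotient.eq_zero_iff_mem.mpr h6
    rw [map_sum] at h7
    simp only [map_mul] at h7
    exact h7
  have h6 : v = 0 := by
    have : v = Matrix.vecMul (Matrix.vecMul v Q) P := by
      rw [Matrix.vecMul_vecMul, hQP, Matrix.vecMul_one]
    rw [this, h5, Matrix.zero_vecMul]
  exact Ideal.Quotient.eq_zero_iff_mem.mp (congrFun h6 ⟨α, mem_dg.mpr hα⟩)

section Base

variable {B : Type*} [CommRing B] [Algebra A B]

theorem mem_map_iff_repr {ι : Type*} (e : Module.Basis ι A B) (I : Ideal A) (b : B) :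
    b ∈ I.map (algebraMap A B) ↔ ∀ j, e.repr b j ∈ I := by
  constructor
  · intro h
    rw [Ideal.map] at h
    induction h using Submodule.span_induction with
    | mem x hx =>
      obtain ⟨a, ha, rfl⟩ := hx
      intro j
      rw [← mul_one (algebraMap A B a), ← Algebra.smul_def, map_smul, Finsupp.smul_apply]
      exact Ideal.mul_mem_right _ _ ha
    | zero => intro j; simp
    | add x y _ _ hx hy => intro j; rw [map_add]; exact Ideal.add_mem _ (hx j) (hy j)
    | smul b' x _ hx =>
      intro l
      have h1 : b' • x = ∑ j ∈ (e.repr x).support, e.repr x j • (b' * e j) := by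
        conv_lhs => rw [← e.linearCombination_repr x, Finsupp.linearCombination_apply, Finsupp.sum,
          smul_eq_mul, Finset.mul_sum]
        refine Finset.sum_congr rfl fun j _ => ?_
        rw [mul_smul_comm]
      rw [h1, map_sum, Finsupp.coe_finsetSum, Finset.sum_apply]
      refine Ideal.sum_mem _ fun j _ => ?_
      rw [map_smul, Finsupp.smul_apply]
      exact Ideal.mul_mem_right _ _ (hx j)
  · intro h
    rw [← e.linearCombination_repr b, Finsupp.linearCombination_apply, Finsupp.sum]
    refine Ideal.sum_mem _ fun j _ => ?_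
    rw [Algebra.smul_def]
    exact Ideal.mul_mem_right _ _ (Ideal.mem_map_of_mem _ (h j))

theorem mon_map (x : σ → A) (α : σ →₀ ℕ) :
    mon (fun i => algebraMap A B (x i)) α = algebraMap A B (mon x α) := by
  rw [mon, mon, Finsupp.prod, Finsupp.prod, map_prod]
  simp only [map_pow]

theorem QR.map [Module.Free A B] {x : σ → A} (hx : QR x) :
    QR fun i => algebraMap A B (x i) := by
  have hspan : Ideal.span (Set.range fun i => algebraMap A B (x i)) =
      (Ideal.span (Set.range x)).map (algebraMap A B) := by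
    rw [Ideal.map_span, ← Set.range_comp]
    rfl
  intro n s hs α hα
  rw [hspan] at hs ⊢
  rw [← Ideal.map_pow] at hs
  let e := Module.Free.chooseBasis A B
  rw [mem_map_iff_repr e] at hs ⊢
  intro j
  refine hx n (fun α => e.repr (s α) j) ?_ α hα
  have h1 : evn x n (fun α => e.repr (s α) j) =
      e.repr (evn (fun i => algebraMap A B (x i)) n s) j := by
    rw [evn, evn, map_sum, Finsupp.coe_finsetSum, Finset.sum_apply]
    refine Finset.sum_congr rfl fun α _ => ?_
    rw [mon_map, mul_comm (s α), ← Algebra.smul_def, map_smul, Finsupp.smul_apply, smul_eq_mul,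
      mul_comm]
  rw [h1]
  exact hs j

end Base

theorem QR_X {k : Type*} [Field k] : QR fun i : σ => (X i : MvPowerSeries σ k) := by
  classical
  have hmon : ∀ β : σ →₀ ℕ, mon (fun i : σ => (X i : MvPowerSeries σ k)) β = monomial β 1 := by
    intro β
    rw [mon, monomial_one_eq]
  intro n s hs α hα
  change _ ∈ mx σ k ^ (n + 1) at hs
  change _ ∈ mx σ k
  rw [mem_mx_pow_iff] at hs
  rw [mem_mx_iff]
  have h1 := hs α (by rw [hα]; exact Nat.lt_succ_self n)
  rw [evn, map_sum, Finset.sum_eq_single α] at h1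
  · rw [hmon, coeff_mul_monomial, if_pos le_rfl, tsub_self, mul_one] at h1
    exact h1
  · intro β hβ hne
    rw [hmon, coeff_mul_monomial, if_neg]
    intro hle
    apply hne
    rw [mem_dg] at hβ
    have h2 : (α - β + β).degree = α.degree := by rw [tsub_add_cancel_of_le hle]
    rw [map_add, hα, hβ] at h2
    have h3 : (α - β).degree = 0 := by omega
    rw [Finsupp.degree_eq_zero_iff, tsub_eq_zero_iff_le] at h3
    exact le_antisymm hle h3
  · intro h
    exact absurd (mem_dg.mpr hα) h

end Pool.Agent.Kummer
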