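import Pool.Agent.Kummer.Calc
import Pool.Agent.Kummer.QuasiReg

/-!
# Invariants of a quasi-regular involution of a power series ring in characteristic two
-/

set_option autoImplicit false
set_option linter.unusedSectionVars false

namespace Pool.Agent.Kummer

open MvPowerSeries

theorem exists_limit {σ : Type*} [Fintype σ] {k : Type*} [CommRing k]
    (h : ℕ → MvPowerSeries σ k) (hh : ∀ n, h n ∈ mx σ k ^ n) :
    ∃ H : MvPowerSeries σ k, ∀ N, H - ∑ n ∈ Finset.range N, h n ∈ mx σ k ^ N := by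
  refine ⟨ofCoeff fun d => ∑ n ∈ Finset.range (d.degree + 1), coeff d (h n), fun N => ?_⟩
  rw [mem_mx_pow_iff]
  intro d hd
  rw [map_sub, map_sum, coeff_ofCoeff, sub_eq_zero]
  refine Finset.sum_subset (Finset.range_subset_range.mpr hd) fun n _ hn => ?_
  rw [Finset.mem_range, not_lt] at hn
  exact (mem_mx_pow_iff n (h n)).mp (hh n) d (by omega)

variable {σ : Type*} [Fintype σ] [DecidableEq σ] {k : Type*} [Field k] [CharP k 2]

/-- The data: an involution `sg` of the power series ring and series `v i` without constant term,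
such that the series `sg (X i) + X i` and the series `v i (X ^ 2)` generate the same ideal, and are
quasi-regular. -/
structure Datum (σ k : Type*) [Fintype σ] [DecidableEq σ] [Field k] [CharP k 2] where
  sg : MvPowerSeries σ k →ₐ[k] MvPowerSeries σ k
  sg_X : ∀ i, sg (X i) ∈ mx σ k
  sg_sg : ∀ f, sg (sg f) = f
  v : σ → MvPowerSeries σ k
  v_mem : ∀ i, v i ∈ mx σ k
  span_eq : Ideal.span (Set.range fun i => sg (X i) + X i) =
    Ideal.span (Set.range fun i => sq (v i))
  qr : QR fun i => sq (v i)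

namespace Datum

variable (D : Datum σ k)

/-- The series `sg (X i) + X i`. -/
noncomputable def a (i : σ) : MvPowerSeries σ k := D.sg (X i) + X i

/-- The ideal of the fixed locus. -/
noncomputable def I : Ideal (MvPowerSeries σ k) := Ideal.span (Set.range D.a)

/-- The operator `sg + 1`. -/
noncomputable def dl (f : MvPowerSeries σ k) : MvPowerSeries σ k := D.sg f + f

/-- The ideal generated by the squares of the variables. -/
noncomputable def qq (σ k : Type*) [CommRing k] : Ideal (MvPowerSeries σ k) :=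
  Ideal.span (Set.range fun i : σ => (X i ^ 2 : MvPowerSeries σ k))

theorem I_eq : D.I = Ideal.span (Set.range fun i => sq (D.v i)) := D.span_eq

theorem qr_a : QR D.a := D.qr.of_span_eq D.span_eq

theorem a_mem (i : σ) : D.a i ∈ D.I := Ideal.subset_span ⟨i, rfl⟩

theorem v_mem_I (i : σ) : sq (D.v i) ∈ D.I := by
  rw [D.I_eq]; exact Ideal.subset_span ⟨i, rfl⟩

theorem sq_mem_qq {f : MvPowerSeries σ k} (hf : f ∈ mx σ k) : sq f ∈ qq σ k := by
  have h1 : (mx σ k).map (sq : MvPowerSeries σ k →ₐ[k] _) ≤ qq σ k := by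
    rw [mx, Ideal.map_span, Ideal.span_le]
    rintro _ ⟨_, ⟨i, rfl⟩, rfl⟩
    rw [expand_X]
    exact Ideal.subset_span ⟨i, rfl⟩
  exact h1 (Ideal.mem_map_of_mem _ hf)

theorem I_le_qq : D.I ≤ qq σ k := by
  rw [D.I_eq, Ideal.span_le]
  rintro _ ⟨i, rfl⟩
  exact sq_mem_qq (D.v_mem i)

theorem qq_le : qq σ k ≤ mx σ k := by
  rw [qq, Ideal.span_le]
  rintro _ ⟨i, rfl⟩
  change X i ^ 2 ∈ mx σ k
  rw [pow_two]
  exact Ideal.mul_mem_left _ _ (X_mem_mx i)

theorem I_le : D.I ≤ mx σ k := D.I_le_qq.trans qq_le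

theorem pd_sq (i : σ) (f : MvPowerSeries σ k) : pd i (sq f) = 0 := by
  ext d
  rw [coeff_pderiv]
  by_cases h : 2 ∣ (d + Finsupp.single i 1 : σ →₀ ℕ) i
  · have h1 : (((d i : ℕ) : k)) + 1 = 0 := by
      rw [Finsupp.add_apply, Finsupp.single_eq_same] at h
      obtain ⟨m, hm⟩ := h
      have h2 : ((d i + 1 : ℕ) : k) = 0 := by
        rw [hm, Nat.cast_mul, Nat.cast_ofNat, CharTwo.two_eq_zero, zero_mul]
      simpa using h2
    rw [h1, mul_zero, map_zero]
  · rw [coeff_expand_of_not_dvd _ _ _ h, zero_mul, map_zero]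

theorem pd_I (i : σ) (f : MvPowerSeries σ k) (hf : f ∈ D.I) : pd i f ∈ D.I := by
  rw [D.I_eq] at hf
  obtain ⟨c, rfl⟩ := (Ideal.mem_span_range_iff_exists_fun).mp hf
  rw [map_sum]
  refine Ideal.sum_mem _ fun j _ => ?_
  rw [pd_mul, pd_sq, mul_zero, zero_add]
  exact Ideal.mul_mem_right _ _ (D.v_mem_I j)

theorem dl_add (f g : MvPowerSeries σ k) : D.dl (f + g) = D.dl f + D.dl g := by
  simp only [dl, map_add]; ring

theorem dl_sub (f g : MvPowerSeries σ k) : D.dl (f - g) = D.dl f - D.dl g := by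
  simp only [dl, map_sub]; ring

theorem dl_zero : D.dl 0 = 0 := by simp [dl]

theorem dl_sum {ι : Type*} (s : Finset ι) (f : ι → MvPowerSeries σ k) :
    D.dl (∑ i ∈ s, f i) = ∑ i ∈ s, D.dl (f i) := by
  simp only [dl, map_sum, Finset.sum_add_distrib]

theorem dl_mul (f g : MvPowerSeries σ k) :
    D.dl (f * g) = D.dl f * g + f * D.dl g + D.dl f * D.dl g := by
  simp only [dl, map_mul]
  have h := add_self' (f * g)
  linear_combination (-f * g - D.sg f * g - D.sg g * f) * two_eq_zero' (σ := σ) (k := k)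

theorem dl_eq_zero_iff (f : MvPowerSeries σ k) : D.dl f = 0 ↔ D.sg f = f := by
  rw [dl, add_eq_zero_iff_eq_neg, neg_eq']

theorem dl_dl (f : MvPowerSeries σ k) : D.dl (D.dl f) = 0 := by
  rw [dl, dl, map_add, D.sg_sg]
  linear_combination (f + D.sg f) * two_eq_zero' (σ := σ) (k := k)

theorem dl_mul_of (f g : MvPowerSeries σ k) (hg : D.dl g = 0) : D.dl (f * g) = D.dl f * g := by
  rw [D.dl_mul, hg, mul_zero, mul_zero, add_zero, add_zero]

theorem dl_mul_of' (f g : MvPowerSeries σ k) (hf : D.dl f = 0) : D.dl (f * g) = f * D.dl g := by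
  rw [mul_comm, D.dl_mul_of _ _ hf, mul_comm]

theorem dl_C (c : k) : D.dl (C c) = 0 := by
  rw [dl_eq_zero_iff]
  exact D.sg.commutes c

theorem dl_X (i : σ) : D.dl (X i) = D.a i := rfl

theorem dl_a (i : σ) : D.dl (D.a i) = 0 := by
  rw [← D.dl_X, D.dl_dl]

theorem dl_mon (α : σ →₀ ℕ) : D.dl (mon D.a α) = 0 := by
  rw [D.dl_eq_zero_iff, mon, Finsupp.prod, map_prod]
  refine Finset.prod_congr rfl fun i _ => ?_
  rw [map_pow, (D.dl_eq_zero_iff _).mp (D.dl_a i)]

theorem sg_mem_pow {N : ℕ} {f : MvPowerSeries σ k} (hf : f ∈ mx σ k ^ N) :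
    D.sg f ∈ mx σ k ^ N := map_mem_mx_pow D.sg D.sg_X hf

theorem dl_mem_pow {N : ℕ} {f : MvPowerSeries σ k} (hf : f ∈ mx σ k ^ N) :
    D.dl f ∈ mx σ k ^ N := Ideal.add_mem _ (D.sg_mem_pow hf) hf

theorem pd_mem_pow {N : ℕ} {f : MvPowerSeries σ k} (i : σ) (hf : f ∈ mx σ k ^ (N + 1)) :
    pd i f ∈ mx σ k ^ N := by
  rw [mem_mx_pow_iff] at hf ⊢
  intro d hd
  rw [coeff_pderiv, hf, zero_mul]
  rw [map_add, Finsupp.degree_single]
  omega

/-- The error term of the first order Taylor expansion. -/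
noncomputable def err (f : MvPowerSeries σ k) : MvPowerSeries σ k :=
  D.dl f - ∑ i, pd i f * D.a i

theorem err_add (f g : MvPowerSeries σ k) : D.err (f + g) = D.err f + D.err g := by
  simp only [err, dl_add, map_add, add_mul, Finset.sum_add_distrib]; ring

theorem err_sub (f g : MvPowerSeries σ k) : D.err (f - g) = D.err f - D.err g := by
  simp only [err, dl_sub, map_sub, sub_mul, Finset.sum_sub_distrib]; ring

theorem err_mul (f g : MvPowerSeries σ k) :
    D.err (f * g) = D.err f * g + f * D.err g + D.dl f * D.dl g := by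
  have h : ∑ i, pd i (f * g) * D.a i = f * (∑ i, pd i g * D.a i) + g * ∑ i, pd i f * D.a i := by
    rw [Finset.mul_sum, Finset.mul_sum, ← Finset.sum_add_distrib]
    refine Finset.sum_congr rfl fun i _ => ?_
    rw [pd_mul]; ring
  rw [err, err, err, dl_mul, h]
  ring

theorem err_poly (p : MvPolynomial σ k) :
    D.err (p : MvPowerSeries σ k) ∈ D.I ^ 2 ∧ D.dl (p : MvPowerSeries σ k) ∈ D.I := by
  induction p using MvPolynomial.induction_on with
  | C c =>
    rw [MvPolynomial.coe_C, D.dl_C, err, D.dl_C]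
    refine ⟨?_, Ideal.zero_mem _⟩
    have : ∑ i, pd i (C c : MvPowerSeries σ k) * D.a i = 0 := by
      refine Finset.sum_eq_zero fun i _ => ?_
      rw [pderiv_C, zero_mul]
    rw [this, sub_zero]
    exact Ideal.zero_mem _
  | add p q hp hq =>
    rw [MvPolynomial.coe_add, D.err_add, D.dl_add]
    exact ⟨Ideal.add_mem _ hp.1 hq.1, Ideal.add_mem _ hp.2 hq.2⟩
  | mul_X p i hp =>
    have hX : D.err (X i) = 0 := by
      rw [err, D.dl_X, sub_eq_zero, Finset.sum_eq_single i]
      · rw [pd_X_self, one_mul]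
      · intro j _ hj
        rw [pd_X_of_ne hj.symm, zero_mul]
      · intro h; exact absurd (Finset.mem_univ _) h
    rw [MvPolynomial.coe_mul, MvPolynomial.coe_X, D.err_mul, D.dl_mul, hX, mul_zero, add_zero,
      D.dl_X]
    refine ⟨Ideal.add_mem _ (Ideal.mul_mem_right _ _ hp.1) ?_, ?_⟩
    · rw [pow_two]
      exact Ideal.mul_mem_mul hp.2 (D.a_mem i)
    · exact Ideal.add_mem _ (Ideal.add_mem _ (Ideal.mul_mem_right _ _ hp.2)
        (Ideal.mul_mem_left _ _ (D.a_mem i))) (Ideal.mul_mem_left _ _ (D.a_mem i))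

theorem err_mem (f : MvPowerSeries σ k) : D.err f ∈ D.I ^ 2 := by
  refine mem_of_forall_exists _ _ fun N => ?_
  obtain ⟨p, hp⟩ := exists_poly_add (N + 1) f
  refine ⟨D.err p, (D.err_poly p).1, ?_⟩
  rw [← D.err_sub, err]
  refine Ideal.sub_mem _ (Ideal.pow_le_pow_right (Nat.le_succ N) (D.dl_mem_pow hp)) ?_
  exact Ideal.sum_mem _ fun i _ => Ideal.mul_mem_right _ _ (pd_mem_pow i hp)

theorem dl_eq (f : MvPowerSeries σ k) : D.dl f = ∑ i, pd i f * D.a i + D.err f := by
  rw [err]; ring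

theorem dl_mem (f : MvPowerSeries σ k) : D.dl f ∈ D.I := by
  rw [dl_eq]
  exact Ideal.add_mem _ (Ideal.sum_mem _ fun i _ => Ideal.mul_mem_left _ _ (D.a_mem i))
    (Ideal.pow_le_self two_ne_zero (D.err_mem f))

theorem dl_evn (n : ℕ) (s : (σ →₀ ℕ) → MvPowerSeries σ k) :
    D.dl (evn D.a n s) - evn D.a (n + 1) (Dop s) ∈ D.I ^ (n + 2) := by
  have h1 : D.dl (evn D.a n s) = ∑ α ∈ dg σ n, ∑ i, pd i (s α) * (D.a i * mon D.a α) +
      ∑ α ∈ dg σ n, D.err (s α) * mon D.a α := by
    rw [evn, dl_sum, ← Finset.sum_add_distrib]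
    refine Finset.sum_congr rfl fun α _ => ?_
    rw [D.dl_mul_of _ _ (D.dl_mon α), D.dl_eq, add_mul, Finset.sum_mul]
    congr 1
    exact Finset.sum_congr rfl fun i _ => by ring
  rw [h1, evn_reindex D.a n (fun i α => pd i (s α))]
  change evn D.a (n + 1) (Dop s) + _ - _ ∈ _
  rw [add_sub_cancel_left]
  refine Ideal.sum_mem _ fun α hα => ?_
  rw [mem_dg] at hα
  rw [add_comm n 2, pow_add]
  exact Ideal.mul_mem_mul (D.err_mem _) (mon_mem' D.a hα)

theorem step {n : ℕ} {f : MvPowerSeries σ k} (hf : f ∈ D.I ^ (n + 1)) (h0 : D.dl f = 0) :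
    ∃ h ∈ D.I ^ n, f - D.dl h ∈ D.I ^ (n + 2) := by
  obtain ⟨s, rfl⟩ := exists_evn D.a (n + 1) hf
  have h1 := D.dl_evn (n + 1) s
  rw [h0, zero_sub, neg_mem_iff] at h1
  have h2 := D.qr_a (n + 1 + 1) (Dop s) h1
  obtain ⟨t, ht⟩ := exact_complex (J := D.I) D.pd_I (Nat.succ_ne_zero n) s h2
  refine ⟨evn D.a n t, evn_mem D.a n t, ?_⟩
  have h3 := D.dl_evn n t
  have h4 : evn D.a (n + 1) s - D.dl (evn D.a n t) =
      evn D.a (n + 1) (fun α => s α - Dop t α) -
        (D.dl (evn D.a n t) - evn D.a (n + 1) (Dop t)) := by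
    have h5 := evn_add D.a (n + 1) (fun α => s α - Dop t α) (Dop t)
    simp only [sub_add_cancel] at h5
    rw [h5]; ring
  rw [h4]
  refine Ideal.sub_mem _ ?_ h3
  have h6 := evn_mem_of D.a (n + 1) (fun α => s α - Dop t α) D.I ht
  rw [show n + 2 = (n + 1) + 1 from rfl, pow_succ']
  exact h6

/-- Invariants in the ideal of the fixed locus are traces. -/
theorem exists_dl_eq {f : MvPowerSeries σ k} (hf : f ∈ D.I) (h0 : D.dl f = 0) :
    ∃ h, f = D.dl h := by
  let T : ℕ → Type _ := fun n => {f : MvPowerSeries σ k // f ∈ D.I ^ (n + 1) ∧ D.dl f = 0}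
  let hs : ∀ n, T n → MvPowerSeries σ k := fun n x => (D.step x.2.1 x.2.2).choose
  have hs1 : ∀ n x, hs n x ∈ D.I ^ n := fun n x => (D.step x.2.1 x.2.2).choose_spec.1
  have hs2 : ∀ n x, x.1 - D.dl (hs n x) ∈ D.I ^ (n + 2) :=
    fun n x => (D.step x.2.1 x.2.2).choose_spec.2
  let nx : ∀ n, T n → T (n + 1) := fun n x => ⟨x.1 - D.dl (hs n x), hs2 n x, by
    rw [D.dl_sub, x.2.2, D.dl_dl, sub_zero]⟩
  let F : ∀ n, T n := fun n => Nat.rec (⟨f, by rw [zero_add, pow_one]; exact hf, h0⟩ : T 0) nx n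
  let h : ℕ → MvPowerSeries σ k := fun n => hs n (F n)
  have hh : ∀ n, h n ∈ mx σ k ^ n := fun n => Ideal.pow_right_mono D.I_le n (hs1 n _)
  obtain ⟨H, hH⟩ := exists_limit h hh
  refine ⟨H, ?_⟩
  rw [← sub_eq_zero]
  refine eq_zero_of_forall_mem _ fun N => ?_
  have h1 : ∀ N, f - D.dl (∑ n ∈ Finset.range N, h n) = (F N).1 := by
    intro N
    induction N with
    | zero => rw [Finset.sum_range_zero, D.dl_zero, sub_zero]; rfl
    | succ N ih =>
      rw [Finset.sum_range_succ, D.dl_add, ← sub_sub, ih]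
  have h2 : f - D.dl H = (F N).1 - D.dl (H - ∑ n ∈ Finset.range N, h n) := by
    rw [← h1 N, D.dl_sub]; ring
  rw [h2]
  refine Ideal.sub_mem _ ?_ (D.dl_mem_pow (hH N))
  exact Ideal.pow_le_pow_right (Nat.le_succ N) (Ideal.pow_right_mono D.I_le _ (F N).2.1)

theorem exists_sub_sq_mem {f : MvPowerSeries σ k} (h0 : D.dl f = 0) :
    ∃ c, f - sq c ∈ D.I := by
  have h1 : ∀ i, pd i f ∈ D.I := by
    have h2 : evn D.a 1 (fun α => ∑ i, if α = Finsupp.single i 1 then pd i f else 0) ∈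
        D.I ^ (1 + 1) := by
      have h3 : evn D.a 1 (fun α => ∑ i, if α = Finsupp.single i 1 then pd i f else 0) =
          ∑ i, pd i f * D.a i := by
        rw [evn]
        simp only [Finset.sum_mul]
        rw [Finset.sum_comm]
        refine Finset.sum_congr rfl fun i _ => ?_
        rw [Finset.sum_eq_single (Finsupp.single i 1)]
        · rw [if_pos rfl, mon_single]
        · intro α _ hα
          rw [if_neg hα, zero_mul]
        · intro h
          exact absurd (mem_dg.mpr (Finsupp.degree_single _ _)) h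
      rw [h3]
      have h4 := D.err_mem f
      rw [err, h0, zero_sub, neg_mem_iff] at h4
      exact h4
    intro i
    have h3 := D.qr_a 1 _ h2 (Finsupp.single i 1) (Finsupp.degree_single _ _)
    rw [Finset.sum_eq_single i] at h3
    · rwa [if_pos rfl] at h3
    · intro j _ hj
      rw [if_neg]
      intro h
      rw [Finsupp.single_left_inj one_ne_zero] at h
      exact hj h.symm
    · intro h; exact absurd (Finset.mem_univ _) h
  obtain ⟨F, hF, hF'⟩ := exists_const (J := D.I) D.pd_I f h1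
  refine ⟨half F, ?_⟩
  rw [← eq_sq_half F hF]
  exact hF'

end Datum

end Pool.Agent.Kummer
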