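import Pool.Agent.Kummer.Norm

/-!
# The cotangent space of the ring of invariants
-/

set_option autoImplicit false
set_option linter.unusedSectionVars false

namespace Pool.Agent.Kummer

open MvPowerSeries

/-- The subring of elements fixed by an endomorphism `s`. -/
noncomputable def fixedRing {σ k : Type*} [Field k] (s : MvPowerSeries σ k →ₐ[k] MvPowerSeries σ k) :
    Subalgebra k (MvPowerSeries σ k) :=
  AlgHom.equalizer s (AlgHom.id k (MvPowerSeries σ k))

theorem mem_fixedRing {σ k : Type*} [Field k] (s : MvPowerSeries σ k →ₐ[k] MvPowerSeries σ k)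
    (f : MvPowerSeries σ k) : f ∈ fixedRing s ↔ s f = f := Iff.rfl

theorem isUnit_fixedRing {σ k : Type*} [Field k] (s : MvPowerSeries σ k →ₐ[k] MvPowerSeries σ k)
    (f : fixedRing s) (hf : IsUnit (f : MvPowerSeries σ k)) : IsUnit f := by
  obtain ⟨u, hu⟩ := hf
  have h1 : (f : MvPowerSeries σ k) * ↑u⁻¹ = 1 := by rw [← hu, Units.mul_inv]
  have h2 : s (↑u⁻¹ : MvPowerSeries σ k) = ↑u⁻¹ := by
    have h3 := congrArg s h1
    rw [map_mul, (mem_fixedRing s _).mp f.2, map_one] at h3
    calc s (↑u⁻¹ : MvPowerSeries σ k) = (↑u⁻¹ * f) * s (↑u⁻¹ : MvPowerSeries σ k) := by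
          rw [mul_comm _ (f : MvPowerSeries σ k), h1, one_mul]
      _ = ↑u⁻¹ := by rw [mul_assoc, h3, mul_one]
  refine IsUnit.of_mul_eq_one ⟨↑u⁻¹, (mem_fixedRing s _).mpr h2⟩ ?_
  exact Subtype.ext h1

instance {σ k : Type*} [Field k] (s : MvPowerSeries σ k →ₐ[k] MvPowerSeries σ k) :
    IsLocalRing (fixedRing s) := by
  have : IsLocalHom (fixedRing s).val.toRingHom := ⟨fun f hf => isUnit_fixedRing s f hf⟩
  exact RingHom.domain_isLocalRing (fixedRing s).val.toRingHom

variable {σ : Type*} [Fintype σ] [DecidableEq σ] {k : Type*} [Field k] [CharP k 2]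

/-- The exponent of the square-free monomial with support `J`. -/
noncomputable def ex (J : Finset σ) : σ →₀ ℕ := Finsupp.indicator J fun _ _ => 1

theorem ex_apply (J : Finset σ) (i : σ) : ex J i = if i ∈ J then 1 else 0 := by
  rw [ex, Finsupp.indicator_apply]
  split_ifs <;> rfl

theorem ex_injective : Function.Injective (ex : Finset σ → (σ →₀ ℕ)) := by
  intro J K h
  ext i
  have := DFunLike.congr_fun h i
  rw [ex_apply, ex_apply] at this
  by_cases h1 : i ∈ J <;> by_cases h2 : i ∈ K <;> simp_all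

theorem ex_singleton (i : σ) : ex {i} = Finsupp.single i 1 := by
  ext j
  rw [ex_apply, Finsupp.single_apply]
  by_cases h : i = j
  · rw [if_pos (Finset.mem_singleton.mpr h.symm), if_pos h]
  · rw [if_neg (fun h' => h (Finset.mem_singleton.mp h').symm), if_neg h]

theorem ex_lt (J : Finset σ) (i : σ) : ex J i < 2 := by
  rw [ex_apply]; split_ifs <;> omega

theorem exists_ex {d : σ →₀ ℕ} (hd : ∀ i, d i < 2) : ∃ J, d = ex J := by
  refine ⟨Finset.univ.filter fun i => d i ≠ 0, ?_⟩
  ext i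
  rw [ex_apply]
  have := hd i
  by_cases h : d i = 0
  · simp [h]
  · rw [if_pos (by simpa using h)]; omega

/-- Linear combinations of square-free monomials. -/
noncomputable def lc (l : Finset σ → k) : MvPowerSeries σ k :=
  ∑ J, C (l J) * monomial (ex J) 1

theorem coeff_lc (l : Finset σ → k) (J : Finset σ) : coeff (ex J) (lc l) = l J := by
  rw [lc, map_sum, Finset.sum_eq_single J]
  · rw [coeff_C_mul, coeff_monomial_same, mul_one]
  · intro K _ hK
    rw [coeff_C_mul, coeff_monomial_ne (fun h => hK (ex_injective h).symm), mul_zero]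
  · intro h; exact absurd (Finset.mem_univ _) h

theorem mem_qq_iff (f : MvPowerSeries σ k) :
    f ∈ Datum.qq σ k ↔ ∀ J, coeff (ex J) f = 0 := by
  rw [Datum.qq, mem_span_X_pow_iff]
  constructor
  · intro h J
    exact h _ (ex_lt J)
  · intro h d hd
    obtain ⟨J, rfl⟩ := exists_ex hd
    exact h J

theorem sub_lc_mem (f : MvPowerSeries σ k) : f - lc (fun J => coeff (ex J) f) ∈ Datum.qq σ k := by
  rw [mem_qq_iff]
  intro J
  rw [map_sub, coeff_lc, sub_self]

theorem pd_mem_mx_iff (i : σ) (f : MvPowerSeries σ k) :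
    pd i f ∈ mx σ k ↔ coeff (ex {i}) f = 0 := by
  rw [mem_mx_iff, ← coeff_zero_eq_constantCoeff_apply, coeff_pderiv, ex_singleton]
  simp

namespace Datum

variable (D : Datum σ k)

/-- The elements of the ring of invariants which lie in the square of its maximal ideal. -/
def M2 : Set (MvPowerSeries σ k) :=
  {f | ∃ p ∈ mx σ k ^ 2, ∃ q ∈ qq σ k, f = D.psi p + D.dl q}

theorem add_mem_M2 {f g : MvPowerSeries σ k} (hf : f ∈ D.M2) (hg : g ∈ D.M2) :
    f + g ∈ D.M2 := by
  obtain ⟨p, hp, q, hq, rfl⟩ := hf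
  obtain ⟨p', hp', q', hq', rfl⟩ := hg
  refine ⟨p + p', Ideal.add_mem _ hp hp', q + q', Ideal.add_mem _ hq hq', ?_⟩
  rw [map_add, D.dl_add]; ring

theorem mul_mem_M2 {f g : MvPowerSeries σ k} (hf : f ∈ mx σ k) (hg : g ∈ mx σ k)
    (hf0 : D.dl f = 0) (hg0 : D.dl g = 0) : f * g ∈ D.M2 := by
  obtain ⟨c, u, rfl⟩ := D.exists_psi_add_dl hf0
  obtain ⟨c', u', rfl⟩ := D.exists_psi_add_dl hg0
  have h1 : ∀ c u, D.psi c + D.dl u ∈ mx σ k → c ∈ mx σ k := by
    intro c u h
    have := Ideal.sub_mem _ h (D.I_le (D.dl_mem u))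
    rw [add_sub_cancel_right] at this
    exact (D.psi_mem_iff c).mp this
  have hc := h1 _ _ hf
  have hc' := h1 _ _ hg
  refine ⟨c * c', ?_, D.psi c * u' + D.psi c' * u + u * D.dl u', ?_, ?_⟩
  · rw [pow_two]; exact Ideal.mul_mem_mul hc hc'
  · refine Ideal.add_mem _ (Ideal.add_mem _ (Ideal.mul_mem_right _ _ (D.psi_mem_qq hc))
      (Ideal.mul_mem_right _ _ (D.psi_mem_qq hc'))) (Ideal.mul_mem_left _ _ ?_)
    exact D.I_le_qq (D.dl_mem u')
  · rw [map_mul, D.dl_add, D.dl_add, D.dl_mul_of' _ _ (D.dl_psi c), D.dl_mul_of' _ _ (D.dl_psi c'),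
      D.dl_mul_of _ _ (D.dl_dl u')]
    ring

theorem mem_maximalIdeal_iff (f : fixedRing D.sg) :
    f ∈ IsLocalRing.maximalIdeal (fixedRing D.sg) ↔ (f : MvPowerSeries σ k) ∈ mx σ k := by
  rw [IsLocalRing.mem_maximalIdeal, mem_nonunits_iff, ← not_iff_not, not_not, ← isUnit_iff]
  constructor
  · intro h
    exact h.map (fixedRing D.sg).val
  · exact isUnit_fixedRing D.sg f

theorem dl_coe (f : fixedRing D.sg) : D.dl (f : MvPowerSeries σ k) = 0 :=
  (D.dl_eq_zero_iff _).mpr f.2

theorem sq_mem_M2 {f : fixedRing D.sg}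
    (hf : f ∈ IsLocalRing.maximalIdeal (fixedRing D.sg) ^ 2) :
    (f : MvPowerSeries σ k) ∈ D.M2 := by
  rw [pow_two] at hf
  induction hf using Submodule.mul_induction_on' with
  | mem_mul_mem a ha b hb =>
    rw [mem_maximalIdeal_iff] at ha hb
    exact D.mul_mem_M2 ha hb (D.dl_coe a) (D.dl_coe b)
  | add a _ b _ ha hb => exact D.add_mem_M2 ha hb

/-- Series in the norms, as invariants. -/
noncomputable def psiS : MvPowerSeries σ k →ₐ[k] fixedRing D.sg :=
  D.psi.codRestrict (fixedRing D.sg) fun f => D.sg_psi f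

theorem psiS_mem {c : MvPowerSeries σ k} {N : ℕ} (hc : c ∈ mx σ k ^ N) :
    D.psiS c ∈ IsLocalRing.maximalIdeal (fixedRing D.sg) ^ N := by
  have h1 : (mx σ k).map D.psiS ≤ IsLocalRing.maximalIdeal (fixedRing D.sg) := by
    rw [Ideal.map_le_iff_le_comap]
    intro f hf
    rw [Ideal.mem_comap, mem_maximalIdeal_iff]
    exact (D.psi_mem_iff f).mpr hf
  have h2 : (mx σ k ^ N).map D.psiS ≤ IsLocalRing.maximalIdeal (fixedRing D.sg) ^ N := by
    rw [Ideal.map_pow]
    exact Ideal.pow_right_mono h1 N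
  exact h2 (Ideal.mem_map_of_mem _ hc)

/-- Traces, as invariants. -/
noncomputable def dlS (f : MvPowerSeries σ k) : fixedRing D.sg :=
  ⟨D.dl f, (D.dl_eq_zero_iff _).mp (D.dl_dl f)⟩

theorem dlS_mem (f : MvPowerSeries σ k) : D.dlS f ∈ IsLocalRing.maximalIdeal (fixedRing D.sg) := by
  rw [mem_maximalIdeal_iff]
  exact D.I_le (D.dl_mem f)

theorem dlS_mem_sq {q : MvPowerSeries σ k} (hq : q ∈ qq σ k) :
    D.dlS q ∈ IsLocalRing.maximalIdeal (fixedRing D.sg) ^ 2 := by
  obtain ⟨r, rfl⟩ := (Ideal.mem_span_range_iff_exists_fun).mp (D.qq_le_span_y hq)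
  have h1 : D.dlS (∑ i, r i * D.y i) = ∑ i, D.dlS (r i) * D.psiS (X i) := by
    apply Subtype.ext
    rw [AddSubmonoidClass.coe_finsetSum]
    change D.dl _ = _
    rw [D.dl_sum]
    refine Finset.sum_congr rfl fun i _ => ?_
    change _ = D.dl (r i) * D.psi (X i)
    rw [D.psi_X, D.dl_mul_of _ _ ((D.dl_eq_zero_iff _).mpr (D.sg_y i))]
  rw [h1, pow_two]
  refine Ideal.sum_mem _ fun i _ => Ideal.mul_mem_mul (D.dlS_mem _) ?_
  have := D.psiS_mem (c := X i) (N := 1) (by rw [pow_one]; exact X_mem_mx i)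
  rwa [pow_one] at this

/-- The generators: the norms of the variables and the traces of the square-free monomials of
degree at least two. -/
noncomputable def gen (J : Finset σ) : fixedRing D.sg :=
  if J.card = 1 then D.psiS (monomial (ex J) 1) else D.dlS (monomial (ex J) 1)

theorem gen_mem {J : Finset σ} (hJ : J ≠ ∅) :
    D.gen J ∈ IsLocalRing.maximalIdeal (fixedRing D.sg) := by
  rw [gen]
  split_ifs with h
  · have h1 : (monomial (ex J) 1 : MvPowerSeries σ k) ∈ mx σ k := by
      rw [mem_mx_iff, ← coeff_zero_eq_constantCoeff_apply, coeff_monomial_ne]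
      intro h0
      apply hJ
      apply ex_injective
      rw [← h0]
      ext i
      simp [ex_apply]
    have := D.psiS_mem (c := (monomial (ex J) 1 : MvPowerSeries σ k)) (N := 1)
      (by rw [pow_one]; exact h1)
    rwa [pow_one] at this
  · exact D.dlS_mem _

theorem sum_gen (l : Finset σ → k) (h0 : l ∅ = 0) :
    ((∑ J, algebraMap k (fixedRing D.sg) (l J) * D.gen J : fixedRing D.sg) :
      MvPowerSeries σ k) =
      D.psi (lc fun J => if J.card = 1 then l J else 0) +
        D.dl (lc fun J => if 2 ≤ J.card then l J else 0) := by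
  rw [AddSubmonoidClass.coe_finsetSum, lc, lc, map_sum, D.dl_sum, ← Finset.sum_add_distrib]
  refine Finset.sum_congr rfl fun J _ => ?_
  change C (l J) * ((D.gen J : fixedRing D.sg) : MvPowerSeries σ k) = _
  have hC : ∀ c : k, D.psi (C c) = C c := fun c => D.psi.commutes c
  rw [gen]
  by_cases h1 : J.card = 1
  · rw [if_pos h1, if_pos h1, if_neg (by omega), map_mul, hC, map_zero, zero_mul, D.dl_zero,
      add_zero]
    rfl
  · rw [if_neg h1, if_neg h1, map_zero, zero_mul, map_zero, zero_add]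
    by_cases h2 : 2 ≤ J.card
    · rw [if_pos h2, D.dl_mul_of' _ _ (D.dl_C _)]
      rfl
    · have h3 : J = ∅ := by
        rw [← Finset.card_eq_zero]; omega
      rw [if_neg h2, h3, h0, map_zero, zero_mul, zero_mul, D.dl_zero]

/-- Independence of the generators modulo the square of the maximal ideal. -/
theorem eq_zero_of_sum_mem (l : Finset σ → k) (h0 : l ∅ = 0)
    (h : ∑ J, algebraMap k (fixedRing D.sg) (l J) * D.gen J ∈
      IsLocalRing.maximalIdeal (fixedRing D.sg) ^ 2) (J : Finset σ) : l J = 0 := by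
  obtain ⟨p, hp, q, hq, hpq⟩ := D.sq_mem_M2 h
  rw [D.sum_gen l h0] at hpq
  set L1 := lc fun J : Finset σ => if J.card = 1 then l J else 0 with hL1
  set L2 := lc fun J : Finset σ => if 2 ≤ J.card then l J else 0 with hL2
  -- the element `c` in the norms and the element `u` with the same trace
  have h1 : D.psi (p - L1) = D.dl (L2 - q) := by
    rw [map_sub, D.dl_sub]
    linear_combination (-1 : MvPowerSeries σ k) * hpq
  have hu : ∀ i, pd i (L2 - q) ∈ mx σ k := by
    intro i
    rw [pd_mem_mx_iff, map_sub, hL2, coeff_lc, (mem_qq_iff q).mp hq, sub_zero, if_neg]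
    rw [Finset.card_singleton]; omega
  have h2 : D.psi (p - L1) ∈ mx σ k * D.I := by
    rw [h1]; exact (D.dl_mem_mul_iff _).mpr hu
  have h3 : D.psi (p - L1) ∈ D.I := by
    rw [h1]; exact D.dl_mem _
  obtain ⟨c, hc⟩ := D.exists_sum_of_psi_mem h3
  have h4 : D.psi (p - L1) = ∑ i, D.psi (c i) * D.psi (D.v i) := by
    rw [hc, map_sum]
    exact Finset.sum_congr rfl fun i _ => by rw [map_mul]
  have h5 : ∀ i, c i ∈ mx σ k := by
    intro i
    rw [h4] at h2
    exact D.mem_of_sum_psi h2 i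
  have h6 : p - L1 ∈ mx σ k ^ 2 := by
    rw [hc, pow_two]
    exact Ideal.sum_mem _ fun i _ => Ideal.mul_mem_mul (h5 i) (D.v_mem i)
  have hL1' : L1 ∈ mx σ k ^ 2 := by
    have := Ideal.sub_mem _ hp h6
    rwa [sub_sub_cancel] at this
  have h7 : D.dl (L2 - q - ∑ i, D.psi (c i) * D.w i) = 0 := by
    rw [D.dl_sub, ← h1, h4, D.dl_sum, sub_eq_zero]
    refine Finset.sum_congr rfl fun i _ => ?_
    rw [D.dl_mul_of' _ _ (D.dl_psi _), D.dl_w]
  have h8 : ∑ i, D.psi (c i) * D.w i ∈ qq σ k :=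
    Ideal.sum_mem _ fun i _ => Ideal.mul_mem_right _ _ (D.psi_mem_qq (h5 i))
  obtain ⟨e, he⟩ := D.exists_sub_sq_mem h7
  have h9 : L2 - sq e ∈ qq σ k := by
    have := Ideal.add_mem _ (Ideal.add_mem _ (D.I_le_qq he) h8) hq
    have h10 : L2 - q - ∑ i, D.psi (c i) * D.w i - sq e + ∑ i, D.psi (c i) * D.w i + q =
        L2 - sq e := by ring
    rwa [h10] at this
  by_cases hJ : J = ∅
  · rw [hJ, h0]
  by_cases hJ1 : J.card = 1
  · have h10 := (mem_mx_pow_iff 2 L1).mp hL1' (ex J) (by
      obtain ⟨i, rfl⟩ := Finset.card_eq_one.mp hJ1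
      rw [ex_singleton, Finsupp.degree_single]; omega)
    rwa [hL1, coeff_lc, if_pos hJ1] at h10
  · have hJ2 : 2 ≤ J.card := by
      have : J.card ≠ 0 := fun h => hJ (Finset.card_eq_zero.mp h)
      omega
    have h10 := (mem_qq_iff _).mp h9 J
    rw [map_sub, hL2, coeff_lc, if_pos hJ2] at h10
    have h11 : coeff (ex J) (sq e) = 0 := by
      obtain ⟨i, hi⟩ := Finset.nonempty_iff_ne_empty.mpr hJ
      refine coeff_expand_of_not_dvd _ _ _ (i := i) ?_
      rw [ex_apply, if_pos hi]; omega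
    rwa [h11, sub_zero] at h10

/-- The generators span the maximal ideal modulo its square. -/
theorem exists_sum_sub_mem (f : fixedRing D.sg)
    (hf : f ∈ IsLocalRing.maximalIdeal (fixedRing D.sg)) :
    ∃ l : Finset σ → k, l ∅ = 0 ∧ f - ∑ J, algebraMap k (fixedRing D.sg) (l J) * D.gen J ∈
      IsLocalRing.maximalIdeal (fixedRing D.sg) ^ 2 := by
  obtain ⟨c, u, hcu, hu⟩ := D.exists_adjust (D.dl_coe f)
  rw [mem_maximalIdeal_iff, hcu] at hf
  have hc : c ∈ mx σ k := by
    have := Ideal.sub_mem _ hf (D.I_le (D.dl_mem u))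
    rw [add_sub_cancel_right] at this
    exact (D.psi_mem_iff c).mp this
  let l : Finset σ → k := fun J =>
    if J.card = 1 then coeff (ex J) c else if 2 ≤ J.card then coeff (ex J) u else 0
  have h0 : l ∅ = 0 := by
    simp [l]
  have hl1 : (fun J : Finset σ => if J.card = 1 then l J else 0) =
      fun J => if J.card = 1 then coeff (ex J) c else 0 := by
    ext J
    by_cases h : J.card = 1 <;> simp [l, h]
  have hl2 : (fun J : Finset σ => if 2 ≤ J.card then l J else 0) =
      fun J => if 2 ≤ J.card then coeff (ex J) u else 0 := by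
    ext J
    by_cases h : 2 ≤ J.card
    · have h' : J.card ≠ 1 := by omega
      simp [l, h, h']
    · simp [h]
  refine ⟨l, h0, ?_⟩
  set L1 := lc (fun J : Finset σ => if J.card = 1 then l J else 0) with hL1
  set L2 := lc (fun J : Finset σ => if 2 ≤ J.card then l J else 0) with hL2
  have h1 : c - L1 ∈ mx σ k ^ 2 := by
    rw [mem_mx_pow_iff]
    intro d hd
    have hd2 : ∀ i, d i < 2 := fun i => lt_of_le_of_lt (Finsupp.le_degree i d) hd
    obtain ⟨J, rfl⟩ := exists_ex hd2
    rw [map_sub, hL1, hl1, coeff_lc]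
    have hJ : (ex J).degree = J.card := by
      rw [Finsupp.degree_eq_sum]
      simp [ex_apply]
    rw [hJ] at hd
    by_cases h : J.card = 1
    · simp [h]
    · have h' : J = ∅ := by rw [← Finset.card_eq_zero]; omega
      subst h'
      have h2 : coeff (ex (∅ : Finset σ)) c = 0 := by
        have : ex (∅ : Finset σ) = 0 := by
          ext i; simp [ex_apply]
        rw [this]
        exact (mem_mx_iff c).mp hc
      rw [h2]
      simp
  have h2 : ∃ e : k, u - C e - L2 ∈ qq σ k := by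
    refine ⟨constantCoeff u, ?_⟩
    rw [mem_qq_iff]
    intro J
    rw [map_sub, map_sub, hL2, hl2, coeff_lc]
    by_cases hJ : J = ∅
    · subst hJ
      have : ex (∅ : Finset σ) = 0 := by
        ext i; simp [ex_apply]
      rw [this]
      simp
    · have hne : ex J ≠ 0 := by
        intro h
        apply hJ
        apply ex_injective
        rw [h]
        ext i; simp [ex_apply]
      rw [coeff_C, if_neg hne, sub_zero]
      by_cases hJ1 : J.card = 1
      · obtain ⟨i, rfl⟩ := Finset.card_eq_one.mp hJ1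
        rw [(pd_mem_mx_iff i u).mp (hu i)]
        simp
      · have : 2 ≤ J.card := by
          have : J.card ≠ 0 := fun h => hJ (Finset.card_eq_zero.mp h)
          omega
        rw [if_pos this, sub_self]
  obtain ⟨e, he⟩ := h2
  have h3 : f - ∑ J, algebraMap k (fixedRing D.sg) (l J) * D.gen J =
      D.psiS (c - L1) + D.dlS (u - C e - L2) := by
    apply Subtype.ext
    rw [Subalgebra.coe_sub, D.sum_gen l h0, hcu, Subalgebra.coe_add]
    change _ = D.psi (c - L1) + D.dl (u - C e - L2)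
    rw [map_sub, D.dl_sub, D.dl_sub, D.dl_C]
    ring
  rw [h3]
  exact Ideal.add_mem _ (D.psiS_mem h1) (D.dlS_mem_sq he)

end Datum

end Pool.Agent.Kummer
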