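import Pool.Agent.Kummer.Rank

/-!
# Generators of the maximal ideal of the ring of invariants
-/

set_option autoImplicit false
set_option linter.unusedSectionVars false

namespace Pool.Agent.Kummer

open MvPowerSeries IsLocalRing

theorem exists_sum_of_mem_mul {A : Type*} [CommRing A] {ι : Type*} [Fintype ι] (I : Ideal A)
    (x : ι → A) {f : A} (hf : f ∈ I * Ideal.span (Set.range x)) :
    ∃ c : ι → A, (∀ i, c i ∈ I) ∧ f = ∑ i, c i * x i := by
  induction hf using Submodule.mul_induction_on' with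
  | mem_mul_mem a ha b hb =>
    obtain ⟨c, rfl⟩ := (Ideal.mem_span_range_iff_exists_fun).mp hb
    refine ⟨fun i => a * c i, fun i => Ideal.mul_mem_right _ _ ha, ?_⟩
    rw [Finset.mul_sum]
    exact Finset.sum_congr rfl fun i _ => by ring
  | add a _ b _ ha hb =>
    obtain ⟨m, hm, rfl⟩ := ha
    obtain ⟨m', hm', rfl⟩ := hb
    refine ⟨fun i => m i + m' i, fun i => Ideal.add_mem _ (hm i) (hm' i), ?_⟩
    rw [← Finset.sum_add_distrib]
    exact Finset.sum_congr rfl fun i _ => by ring

variable {σ : Type*} [Fintype σ] [DecidableEq σ] {k : Type*} [Field k] [CharP k 2]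

namespace Datum

variable (D : Datum σ k)

/-- The generators, as a family indexed by the nonempty subsets. -/
noncomputable def genS (J : {J : Finset σ // J ≠ ∅}) : fixedRing D.sg := D.gen J.1

theorem maximalIdeal_le_sup : maximalIdeal (fixedRing D.sg) ≤
    Ideal.span (Set.range D.genS) ⊔ maximalIdeal (fixedRing D.sg) ^ 2 := by
  intro f hf
  obtain ⟨l, h0, hl⟩ := D.exists_sum_sub_mem f hf
  have h1 : f = ∑ J, algebraMap k (fixedRing D.sg) (l J) * D.gen J +
      (f - ∑ J, algebraMap k (fixedRing D.sg) (l J) * D.gen J) := by ring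
  rw [h1]
  refine Submodule.add_mem_sup (Ideal.sum_mem _ fun J _ => ?_) hl
  by_cases hJ : J = ∅
  · rw [hJ, h0, map_zero, zero_mul]; exact Ideal.zero_mem _
  · exact Ideal.mul_mem_left _ _ (Ideal.subset_span ⟨⟨J, hJ⟩, rfl⟩)

theorem mem_mx_pow_of_mem {n : ℕ} {f : fixedRing D.sg}
    (hf : f ∈ maximalIdeal (fixedRing D.sg) ^ n) : (f : MvPowerSeries σ k) ∈ mx σ k ^ n := by
  have h1 : (maximalIdeal (fixedRing D.sg)).map (fixedRing D.sg).val ≤ mx σ k := by
    rw [Ideal.map_le_iff_le_comap]
    intro f hf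
    exact (D.mem_maximalIdeal_iff f).mp hf
  have h2 : (maximalIdeal (fixedRing D.sg) ^ n).map (fixedRing D.sg).val ≤ mx σ k ^ n := by
    rw [Ideal.map_pow]
    exact Ideal.pow_right_mono h1 n
  exact h2 (Ideal.mem_map_of_mem _ hf)

theorem gen_step (n : ℕ) {f : fixedRing D.sg} (hf : f ∈ maximalIdeal (fixedRing D.sg) ^ (n + 1)) :
    ∃ c : {J : Finset σ // J ≠ ∅} → fixedRing D.sg,
      (∀ J, c J ∈ maximalIdeal (fixedRing D.sg) ^ n) ∧
      f - ∑ J, c J * D.genS J ∈ maximalIdeal (fixedRing D.sg) ^ (n + 2) := by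
  have h1 : maximalIdeal (fixedRing D.sg) ^ (n + 1) ≤
      maximalIdeal (fixedRing D.sg) ^ n * Ideal.span (Set.range D.genS) ⊔
        maximalIdeal (fixedRing D.sg) ^ (n + 2) := by
    rw [pow_succ, pow_add _ n 2, ← Ideal.mul_sup]
    exact Ideal.mul_mono_right D.maximalIdeal_le_sup
  obtain ⟨a, ha, b, hb, rfl⟩ := Submodule.mem_sup.mp (h1 hf)
  obtain ⟨c, hc, rfl⟩ := exists_sum_of_mem_mul _ _ ha
  exact ⟨c, hc, by rw [add_sub_cancel_left]; exact hb⟩

theorem span_gen : maximalIdeal (fixedRing D.sg) = Ideal.span (Set.range D.genS) := by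
  apply le_antisymm
  · intro f hf
    let T : ℕ → Type _ := fun n => {f : fixedRing D.sg //
      f ∈ maximalIdeal (fixedRing D.sg) ^ (n + 1)}
    let cs : ∀ n, T n → {J : Finset σ // J ≠ ∅} → fixedRing D.sg :=
      fun n x => (D.gen_step n x.2).choose
    have cs1 : ∀ n x J, cs n x J ∈ maximalIdeal (fixedRing D.sg) ^ n :=
      fun n x => (D.gen_step n x.2).choose_spec.1
    have cs2 : ∀ n x, x.1 - ∑ J, cs n x J * D.genS J ∈ maximalIdeal (fixedRing D.sg) ^ (n + 2) :=
      fun n x => (D.gen_step n x.2).choose_spec.2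
    let nx : ∀ n, T n → T (n + 1) := fun n x => ⟨x.1 - ∑ J, cs n x J * D.genS J, cs2 n x⟩
    let F : ∀ n, T n := fun n => Nat.rec (⟨f, by rw [zero_add, pow_one]; exact hf⟩ : T 0) nx n
    let c : {J : Finset σ // J ≠ ∅} → ℕ → fixedRing D.sg := fun J n => cs n (F n) J
    have hlim : ∀ J, ∃ H : MvPowerSeries σ k, ∀ N,
        H - ∑ n ∈ Finset.range N, (c J n : MvPowerSeries σ k) ∈ mx σ k ^ N := fun J =>
      exists_limit _ fun n => D.mem_mx_pow_of_mem (cs1 n (F n) J)
    choose H hH using hlim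
    have hHfix : ∀ J, D.dl (H J) = 0 := by
      intro J
      refine eq_zero_of_forall_mem _ fun N => ?_
      have h1 : D.dl (H J) = D.dl (H J - ∑ n ∈ Finset.range N, (c J n : MvPowerSeries σ k)) := by
        have h2 : D.dl (∑ n ∈ Finset.range N, (c J n : MvPowerSeries σ k)) = 0 := by
          rw [D.dl_sum]
          exact Finset.sum_eq_zero fun n _ => D.dl_coe _
        rw [D.dl_sub, h2, sub_zero]
      rw [h1]
      exact D.dl_mem_pow (hH J N)
    let Hs : {J : Finset σ // J ≠ ∅} → fixedRing D.sg := fun J =>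
      ⟨H J, (D.dl_eq_zero_iff _).mp (hHfix J)⟩
    have h1 : ∀ N, f - ∑ J, (∑ n ∈ Finset.range N, c J n) * D.genS J = (F N).1 := by
      intro N
      induction N with
      | zero => simp; rfl
      | succ N ih =>
        simp only [Finset.sum_range_succ, add_mul, Finset.sum_add_distrib]
        rw [← sub_sub, ih]
    have h2 : f = ∑ J, Hs J * D.genS J := by
      apply Subtype.ext
      rw [← sub_eq_zero]
      refine eq_zero_of_forall_mem _ fun N => ?_
      have h3 : ((f : fixedRing D.sg) : MvPowerSeries σ k) -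
          ((∑ J, Hs J * D.genS J : fixedRing D.sg) : MvPowerSeries σ k) =
          ((F N).1 : MvPowerSeries σ k) - ∑ J, (H J - ∑ n ∈ Finset.range N,
            (c J n : MvPowerSeries σ k)) * (D.genS J : MvPowerSeries σ k) := by
        rw [← h1 N]
        push_cast
        simp only [sub_mul, Finset.sum_sub_distrib]
        have h4 : ∀ J, ((Hs J : fixedRing D.sg) : MvPowerSeries σ k) = H J := fun _ => rfl
        simp only [h4]
        ring
      rw [h3]
      refine Ideal.sub_mem _ ?_ (Ideal.sum_mem _ fun J _ => Ideal.mul_mem_right _ _ (hH J N))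
      exact Ideal.pow_le_pow_right (Nat.le_succ N) (D.mem_mx_pow_of_mem (F N).2)
    rw [h2]
    exact Ideal.sum_mem _ fun J _ => Ideal.mul_mem_left _ _ (Ideal.subset_span ⟨J, rfl⟩)
  · rw [Ideal.span_le]
    rintro _ ⟨J, rfl⟩
    exact D.gen_mem J.2

/-- The minimal number of generators of the maximal ideal of the ring of invariants. -/
theorem spanFinrank_maximalIdeal :
    (maximalIdeal (fixedRing D.sg)).spanFinrank = 2 ^ Fintype.card σ - 1 := by
  rw [spanFinrank_maximalIdeal_eq_finrank_cotangentSpace_of_fg, D.finrank_cotangentSpace]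
  rw [D.span_gen]
  exact Submodule.fg_span (Set.finite_range _)

end Datum

end Pool.Agent.Kummer
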