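import Pool.Agent.Kummer.Law
import Pool.Agent.Kummer.Gen

set_option autoImplicit false

namespace Pool.Agent.Kummer

namespace CommFormalGroupLaw

variable {g : ℕ} {k : Type*} [Field k] (F : CommFormalGroupLaw g k) [CharP k 2]

theorem spanFinrank_maximalIdeal (h : F.TwoIsogeny) :
    (IsLocalRing.maximalIdeal (fixedRing F.negHom)).spanFinrank = 2 ^ g - 1 := by
  have := (F.datum h).spanFinrank_maximalIdeal
  rwa [Fintype.card_fin] at this

end CommFormalGroupLaw

end Pool.Agent.Kummer
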