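import Mathlib

/-!
# Commutative formal group laws of dimension `g`
-/

set_option autoImplicit false

namespace Pool.Agent.Kummer

open MvPowerSeries

/-- A commutative formal group law of dimension `g` over a field `k`: power series
`F_1, ..., F_g` in the variables `x_j = X (inl j)` and `y_j = X (inr j)` without constant term, with
`F(x, 0) = x`, `F(x, y) = F(y, x)` and `F(F(x, y), z) = F(x, F(y, z))`, together with its inverse,
the power series `neg_1, ..., neg_g` in `x_1, ..., x_g` without constant term
with `F(x, neg(x)) = 0`. -/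
structure CommFormalGroupLaw (g : ℕ) (k : Type*) [Field k] where
  /-- the power series `F_1, ..., F_g` -/
  add : Fin g → MvPowerSeries (Fin g ⊕ Fin g) k
  /-- the inverse -/
  neg : Fin g → MvPowerSeries (Fin g) k
  constantCoeff_add : ∀ i, constantCoeff (add i) = 0
  constantCoeff_neg : ∀ i, constantCoeff (neg i) = 0
  /-- `F(x, 0) = x` -/
  add_zero : ∀ i, subst (Sum.elim (fun j => (X j : MvPowerSeries (Fin g) k)) fun _ => 0) (add i) =
    X i
  /-- `F(y, x) = F(x, y)` -/
  add_comm : ∀ i, subst (Sum.elim (fun j => (X (Sum.inr j) : MvPowerSeries (Fin g ⊕ Fin g) k))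
    fun j => X (Sum.inl j)) (add i) = add i
  /-- `F(F(x, y), z) = F(x, F(y, z))`, with `x = X (0, ·)`, `y = X (1, ·)`, `z = X (2, ·)` -/
  add_assoc : ∀ i,
    subst (Sum.elim (fun j => subst (Sum.elim (fun l => (X (0, l) : MvPowerSeries (Fin 3 × Fin g) k))
      fun l => X (1, l)) (add j)) fun j => X (2, j)) (add i) =
    subst (Sum.elim (fun j => (X (0, j) : MvPowerSeries (Fin 3 × Fin g) k))
      fun j => subst (Sum.elim (fun l => (X (1, l) : MvPowerSeries (Fin 3 × Fin g) k))
        fun l => X (2, l)) (add j)) (add i)
  /-- `F(x, neg(x)) = 0` -/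
  add_neg : ∀ i, subst (Sum.elim (fun j => (X j : MvPowerSeries (Fin g) k)) neg) (add i) = 0

namespace CommFormalGroupLaw

variable {g : ℕ} {k : Type*} [Field k] (F : CommFormalGroupLaw g k)

theorem hasSubst_neg : HasSubst F.neg := hasSubst_of_constantCoeff_zero F.constantCoeff_neg

/-- The automorphism `f(x) ↦ f(neg(x))` of the ring of functions `k[[x_1, ..., x_g]]` of the formal
group, given by the inverse. -/
noncomputable def negHom : MvPowerSeries (Fin g) k →ₐ[k] MvPowerSeries (Fin g) k :=
  substAlgHom F.hasSubst_neg

theorem constantCoeff_two (i : Fin g) : constantCoeff (subst (Sum.elim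
    (fun j => (X j : MvPowerSeries (Fin g) k)) fun j => X j) (F.add i)) = 0 := by
  refine constantCoeff_subst_eq_zero (hasSubst_of_constantCoeff_zero ?_) ?_ (F.constantCoeff_add i)
  · rintro (j | j) <;> simp
  · rintro (j | j) <;> simp

/-- The endomorphism `f(x) ↦ f(F(x, x))` of the ring of functions `k[[x_1, ..., x_g]]` of the
formal group, given by multiplication by two. -/
noncomputable def twoHom : MvPowerSeries (Fin g) k →ₐ[k] MvPowerSeries (Fin g) k :=
  substAlgHom (hasSubst_of_constantCoeff_zero F.constantCoeff_two)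

/-- Multiplication by two is an isogeny: it makes the ring of functions a finite flat module over
itself. -/
def TwoIsogeny : Prop := (F.twoHom : MvPowerSeries (Fin g) k →+* MvPowerSeries (Fin g) k).Finite ∧
  (F.twoHom : MvPowerSeries (Fin g) k →+* MvPowerSeries (Fin g) k).Flat

end CommFormalGroupLaw

end Pool.Agent.Kummer
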