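import Pool.Agent.Kummer.Cot

/-!
# The embedding dimension of the ring of invariants
-/

set_option autoImplicit false
set_option linter.unusedSectionVars false

namespace Pool.Agent.Kummer

open MvPowerSeries IsLocalRing

variable {σ : Type*} [Fintype σ] [DecidableEq σ] {k : Type*} [Field k] [CharP k 2]

namespace Datum

variable (D : Datum σ k)

theorem exists_residue (c : ResidueField (fixedRing D.sg)) :
    ∃ t : k, c = algebraMap (fixedRing D.sg) (ResidueField (fixedRing D.sg))
      (algebraMap k (fixedRing D.sg) t) := by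
  obtain ⟨s, rfl⟩ := IsLocalRing.residue_surjective (R := fixedRing D.sg) c
  refine ⟨constantCoeff (s : MvPowerSeries σ k), ?_⟩
  rw [IsLocalRing.ResidueField.algebraMap_eq, ← sub_eq_zero, ← map_sub,
    IsLocalRing.residue_eq_zero_iff, D.mem_maximalIdeal_iff]
  change (s : MvPowerSeries σ k) - C (constantCoeff (s : MvPowerSeries σ k)) ∈ mx σ k
  rw [mem_mx_iff, map_sub, constantCoeff_C, sub_self]

/-- The classes of the generators in the cotangent space. -/
noncomputable def genC (J : {J : Finset σ // J ≠ ∅}) : CotangentSpace (fixedRing D.sg) :=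
  (maximalIdeal (fixedRing D.sg)).toCotangent ⟨D.gen J.1, D.gen_mem J.2⟩

theorem sum_smul_genC (l : {J : Finset σ // J ≠ ∅} → k) :
    ∃ h : ∑ J, algebraMap k (fixedRing D.sg) (if hJ : J ≠ ∅ then l ⟨J, hJ⟩ else 0) * D.gen J ∈
      maximalIdeal (fixedRing D.sg),
    ∑ J, algebraMap (fixedRing D.sg) (ResidueField (fixedRing D.sg))
      (algebraMap k (fixedRing D.sg) (l J)) • D.genC J =
      (maximalIdeal (fixedRing D.sg)).toCotangent
        ⟨∑ J, algebraMap k (fixedRing D.sg) (if hJ : J ≠ ∅ then l ⟨J, hJ⟩ else 0) * D.gen J, h⟩ := by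
  have h1 : ∀ J : Finset σ, algebraMap k (fixedRing D.sg)
      (if hJ : J ≠ ∅ then l ⟨J, hJ⟩ else 0) * D.gen J ∈ maximalIdeal (fixedRing D.sg) := by
    intro J
    by_cases hJ : J ≠ ∅
    · exact Ideal.mul_mem_left _ _ (D.gen_mem hJ)
    · rw [dif_neg hJ, map_zero, zero_mul]; exact Ideal.zero_mem _
  refine ⟨Ideal.sum_mem _ fun J _ => h1 J, ?_⟩
  have h2 : (⟨∑ J, algebraMap k (fixedRing D.sg) (if hJ : J ≠ ∅ then l ⟨J, hJ⟩ else 0) * D.gen J,
      Ideal.sum_mem _ fun J _ => h1 J⟩ : maximalIdeal (fixedRing D.sg)) =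
      ∑ J : {J : Finset σ // J ≠ ∅}, algebraMap k (fixedRing D.sg) (l J) •
        (⟨D.gen J.1, D.gen_mem J.2⟩ : maximalIdeal (fixedRing D.sg)) := by
    apply Subtype.ext
    rw [AddSubmonoidClass.coe_finsetSum]
    change ∑ J, _ = ∑ J : {J : Finset σ // J ≠ ∅}, algebraMap k (fixedRing D.sg) (l J) * D.gen J.1
    have h3 : ∑ J : {J : Finset σ // J ≠ ∅}, algebraMap k (fixedRing D.sg) (l J) * D.gen J.1 =
        ∑ J : {J : Finset σ // J ≠ ∅}, (fun J : Finset σ => algebraMap k (fixedRing D.sg)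
          (if hJ : J ≠ ∅ then l ⟨J, hJ⟩ else 0) * D.gen J) J.1 := by
      refine Finset.sum_congr rfl fun J _ => ?_
      simp only [dif_pos J.2]
    have h4 := Finset.sum_subtype (F := inferInstance)
      (Finset.univ.filter fun J : Finset σ => J ≠ ∅)
      (p := fun J : Finset σ => J ≠ ∅) (by simp)
      (fun J : Finset σ => algebraMap k (fixedRing D.sg)
          (if hJ : J ≠ ∅ then l ⟨J, hJ⟩ else 0) * D.gen J)
    rw [h3, ← h4, Finset.sum_filter]
    refine Finset.sum_congr rfl fun J _ => ?_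
    by_cases hJ : J ≠ ∅
    · rw [if_pos hJ]
    · rw [if_neg hJ, dif_neg hJ, map_zero, zero_mul]
  rw [h2, map_sum]
  refine Finset.sum_congr rfl fun J _ => ?_
  rw [algebraMap_smul, map_smul]
  rfl

theorem linearIndependent_genC : LinearIndependent (ResidueField (fixedRing D.sg)) D.genC := by
  rw [Fintype.linearIndependent_iff]
  intro c hc J
  choose l hl using fun J => D.exists_residue (c J)
  obtain ⟨h, h1⟩ := D.sum_smul_genC l
  simp only [hl] at hc
  rw [h1, Ideal.toCotangent_eq_zero] at hc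
  have h2 := D.eq_zero_of_sum_mem _ (by rw [dif_neg (by simp)]) hc J.1
  rw [dif_pos J.2] at h2
  rw [hl, h2, map_zero, map_zero]

theorem span_genC : ⊤ ≤ Submodule.span (ResidueField (fixedRing D.sg)) (Set.range D.genC) := by
  intro x _
  obtain ⟨⟨f, hf⟩, rfl⟩ := Ideal.toCotangent_surjective _ x
  obtain ⟨l, h0, hl⟩ := D.exists_sum_sub_mem f hf
  obtain ⟨h, h1⟩ := D.sum_smul_genC fun J => l J.1
  have h2 : ∀ J, (if hJ : J ≠ ∅ then l J else 0) = l J := by
    intro J
    by_cases hJ : J ≠ ∅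
    · rw [dif_pos hJ]
    · rw [dif_neg hJ]
      rw [not_not] at hJ
      rw [hJ, h0]
  have h3 : (maximalIdeal (fixedRing D.sg)).toCotangent ⟨f, hf⟩ =
      ∑ J : {J : Finset σ // J ≠ ∅}, algebraMap (fixedRing D.sg) (ResidueField (fixedRing D.sg))
      (algebraMap k (fixedRing D.sg) (l J.1)) • D.genC J := by
    rw [h1, Ideal.toCotangent_eq]
    simp only [h2]
    exact hl
  rw [h3]
  exact Submodule.sum_mem _ fun J _ => Submodule.smul_mem _ _ (Submodule.subset_span ⟨J, rfl⟩)

/-- The embedding dimension of the ring of invariants. -/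
theorem finrank_cotangentSpace :
    Module.finrank (ResidueField (fixedRing D.sg)) (CotangentSpace (fixedRing D.sg)) =
      2 ^ Fintype.card σ - 1 := by
  rw [Module.finrank_eq_card_basis (Module.Basis.mk D.linearIndependent_genC D.span_genC)]
  rw [Fintype.card_subtype_compl, Fintype.card_finset]
  simp

end Datum

end Pool.Agent.Kummer
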