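import Pool.Agent.Kummer.FormalGroup
import Pool.Agent.Kummer.Rank

/-!
# From a formal group law to the datum
-/

set_option autoImplicit false
set_option linter.unusedSectionVars false

namespace Pool.Agent.Kummer

open MvPowerSeries

section Diag

variable {σ : Type*} [Fintype σ] [DecidableEq σ] {k : Type*} [Field k] [CharP k 2]

theorem coeff_diag_eq_zero (f : MvPowerSeries (σ ⊕ σ) k) (hf : rename Sum.swap f = f)
    (γ : σ →₀ ℕ) (i : σ) (hi : ¬ 2 ∣ γ i) :
    coeff γ (rename (Sum.elim id id) f) = 0 := by
  have hsw : ∀ d : σ ⊕ σ →₀ ℕ, coeff (d.mapDomain Sum.swap) f = coeff d f := by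
    intro d
    conv_lhs => rw [← hf]
    have := coeff_embDomain_rename (Equiv.sumComm σ σ).toEmbedding f d
    rw [Finsupp.embDomain_eq_mapDomain] at this
    exact this
  have hval : ∀ (d : σ ⊕ σ →₀ ℕ) (s : σ ⊕ σ), d.mapDomain Sum.swap s = d s.swap := by
    intro d s
    conv_lhs => rw [← Sum.swap_swap s]
    exact Finsupp.mapDomain_apply Sum.swap_leftInverse.injective d s.swap
  rw [coeff_rename]
  refine Finset.sum_involution (fun d _ => d.mapDomain Sum.swap) ?_ ?_ ?_ ?_
  · intro d _
    rw [hsw, CharTwo.add_self_eq_zero]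
  · intro d hd _ h
    apply hi
    rw [Set.Finite.mem_toFinset, Set.mem_preimage, Set.mem_singleton_iff] at hd
    have h1 : d (Sum.inl i) = d (Sum.inr i) := by
      have := DFunLike.congr_fun h (Sum.inl i)
      rw [hval] at this
      exact this.symm
    have h2 : γ i = d (Sum.inl i) + d (Sum.inr i) := by
      rw [← hd, Finsupp.mapDomain, Finsupp.sum_fintype _ _ (by simp), Fintype.sum_sum_type,
        Finsupp.add_apply, Finsupp.coe_finsetSum, Finsupp.coe_finsetSum, Finset.sum_apply,
        Finset.sum_apply]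
      simp [Finsupp.single_apply]
    rw [h2, h1]
    exact ⟨d (Sum.inr i), by ring⟩
  · intro d hd
    rw [Set.Finite.mem_toFinset, Set.mem_preimage, Set.mem_singleton_iff] at hd ⊢
    rw [← hd, ← Finsupp.mapDomain_comp]
    congr 1
    ext (s | s) <;> rfl
  · intro d _
    ext s
    rw [hval, hval, Sum.swap_swap]

end Diag

theorem QR.of_finite_flat {σ : Type*} [Fintype σ] [DecidableEq σ] {A B : Type*} [CommRing A]
    [IsLocalRing A] [CommRing B] (f : A →+* B) (h1 : f.Finite) (h2 : f.Flat) {x : σ → A}
    (hx : QR x) : QR fun i => f (x i) := by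
  let _ := f.toAlgebra
  have : Module.Finite A B := h1
  have : Module.Flat A B := h2
  have : Module.Free A B := Module.free_of_flat_of_isLocalRing
  exact hx.map (B := B)

namespace CommFormalGroupLaw

variable {g : ℕ} {k : Type*} [Field k] (F : CommFormalGroupLaw g k)

/-- Tuples of power series without constant term. -/
def Pt (τ : Type*) (u : Fin g → MvPowerSeries τ k) : Prop := ∀ i, constantCoeff (u i) = 0

variable {τ : Type*} {u v w : Fin g → MvPowerSeries τ k}

theorem hasSubst_elim (hu : Pt τ u) (hv : Pt τ v) : HasSubst (Sum.elim u v) :=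
  hasSubst_of_constantCoeff_zero (by rintro (j | j); exacts [hu j, hv j])

/-- The sum of two points. -/
noncomputable def sm (u v : Fin g → MvPowerSeries τ k) : Fin g → MvPowerSeries τ k :=
  fun i => subst (Sum.elim u v) (F.add i)

theorem pt_sm (hu : Pt τ u) (hv : Pt τ v) : Pt τ (F.sm u v) := fun i =>
  constantCoeff_subst_eq_zero (hasSubst_elim hu hv) (by rintro (j | j); exacts [hu j, hv j])
    (F.constantCoeff_add i)

theorem pt_X : Pt (Fin g) (fun i => (X i : MvPowerSeries (Fin g) k)) := fun i => by simp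

theorem pt_zero : Pt τ (fun _ : Fin g => (0 : MvPowerSeries τ k)) := fun i => by simp

theorem sm_zero (hu : Pt τ u) : F.sm u (fun _ => 0) = u := by
  ext1 i
  have h := congrArg (subst u) (F.add_zero i)
  rw [subst_X (hasSubst_of_constantCoeff_zero hu), subst_comp_subst_apply
    (hasSubst_elim pt_X pt_zero) (hasSubst_of_constantCoeff_zero hu)] at h
  rw [sm, ← h]
  congr 1
  ext1 (j | j)
  · simp [subst_X (hasSubst_of_constantCoeff_zero hu)]
  · change 0 = subst u 0
    rw [← coe_substAlgHom (hasSubst_of_constantCoeff_zero hu), map_zero]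

theorem sm_comm (hu : Pt τ u) (hv : Pt τ v) : F.sm u v = F.sm v u := by
  ext1 i
  have hs := hasSubst_elim hu hv
  have h := congrArg (subst (Sum.elim u v)) (F.add_comm i)
  rw [subst_comp_subst_apply (hasSubst_of_constantCoeff_zero (by rintro (j | j) <;> simp)) hs] at h
  rw [sm, sm, ← h]
  congr 1
  ext1 (j | j)
  · simp [subst_X hs]
  · simp [subst_X hs]

theorem sm_assoc (hu : Pt τ u) (hv : Pt τ v) (hw : Pt τ w) :
    F.sm (F.sm u v) w = F.sm u (F.sm v w) := by
  ext1 i
  let q : Fin 3 × Fin g → MvPowerSeries τ k := fun p =>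
    match p with
    | (0, j) => u j
    | (1, j) => v j
    | (2, j) => w j
  have hq : ∀ p, constantCoeff (q p) = 0 := by
    rintro ⟨a, j⟩
    fin_cases a
    · exact hu j
    · exact hv j
    · exact hw j
  have hs : HasSubst q := hasSubst_of_constantCoeff_zero hq
  have h := congrArg (subst q) (F.add_assoc i)
  have hX : ∀ a b : Fin 3, HasSubst (Sum.elim
      (fun l => (X (a, l) : MvPowerSeries (Fin 3 × Fin g) k)) fun l => X (b, l)) := fun a b =>
    hasSubst_of_constantCoeff_zero (by rintro (j | j) <;> simp)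
  have hc : ∀ a b : Fin 3, ∀ j, constantCoeff (subst (Sum.elim
      (fun l => (X (a, l) : MvPowerSeries (Fin 3 × Fin g) k)) fun l => X (b, l)) (F.add j)) = 0 :=
    fun a b j => constantCoeff_subst_eq_zero (hX a b) (by rintro (j | j) <;> simp)
      (F.constantCoeff_add j)
  rw [subst_comp_subst_apply (hasSubst_of_constantCoeff_zero
      (by rintro (j | j); exacts [hc 0 1 j, by simp])) hs,
    subst_comp_subst_apply (hasSubst_of_constantCoeff_zero
      (by rintro (j | j); exacts [by simp, hc 1 2 j])) hs] at h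
  have h1 : (fun s => subst q (Sum.elim (fun j => subst (Sum.elim
      (fun l => (X (0, l) : MvPowerSeries (Fin 3 × Fin g) k)) fun l => X (1, l)) (F.add j))
      (fun j => X (2, j)) s)) = Sum.elim (F.sm u v) w := by
    ext1 (j | j)
    · simp only [Sum.elim_inl]
      rw [subst_comp_subst_apply (hX 0 1) hs, sm]
      congr 1
      ext1 (l | l)
      · simp [subst_X hs, q]
      · simp [subst_X hs, q]
    · simp [subst_X hs, q]
  have h2 : (fun s => subst q (Sum.elim (fun j => (X (0, j) : MvPowerSeries (Fin 3 × Fin g) k))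
      (fun j => subst (Sum.elim (fun l => (X (1, l) : MvPowerSeries (Fin 3 × Fin g) k))
        fun l => X (2, l)) (F.add j)) s)) = Sum.elim u (F.sm v w) := by
    ext1 (j | j)
    · simp [subst_X hs, q]
    · simp only [Sum.elim_inr]
      rw [subst_comp_subst_apply (hX 1 2) hs, sm]
      congr 1
      ext1 (l | l)
      · simp [subst_X hs, q]
      · simp [subst_X hs, q]
  rw [h1, h2] at h
  exact h

theorem sm_neg (hu : Pt τ u) : F.sm u (fun i => subst u (F.neg i)) = fun _ => 0 := by
  ext1 i
  have hs := hasSubst_of_constantCoeff_zero hu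
  have h := congrArg (subst u) (F.add_neg i)
  rw [subst_comp_subst_apply (hasSubst_elim pt_X F.constantCoeff_neg) hs,
    ← coe_substAlgHom hs, map_zero, coe_substAlgHom hs] at h
  rw [sm, ← h]
  congr 1
  ext1 (j | j)
  · simp [subst_X hs]
  · rfl

theorem zero_sm (hu : Pt τ u) : F.sm (fun _ => 0) u = u := by
  rw [F.sm_comm pt_zero hu, F.sm_zero hu]

theorem sm_X_neg : F.sm (fun i => (X i : MvPowerSeries (Fin g) k)) F.neg = fun _ => 0 := by
  ext1 i; exact F.add_neg i

theorem neg_neg (i : Fin g) : subst F.neg (F.neg i) = X i := by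
  have h1 := F.sm_neg (u := F.neg) F.constantCoeff_neg
  have hnn : Pt (Fin g) (fun i => subst F.neg (F.neg i)) := fun i =>
    constantCoeff_subst_eq_zero F.hasSubst_neg F.constantCoeff_neg (F.constantCoeff_neg i)
  have h2 := F.sm_assoc (pt_X (g := g) (k := k)) F.constantCoeff_neg hnn
  rw [h1, F.sm_X_neg, F.zero_sm hnn, F.sm_zero pt_X] at h2
  exact congrFun h2 i

theorem negHom_X (i : Fin g) : F.negHom (X i) = F.neg i := substAlgHom_X _ _

theorem negHom_negHom (f : MvPowerSeries (Fin g) k) : F.negHom (F.negHom f) = f := by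
  have h : F.negHom.comp F.negHom = AlgHom.id k _ := by
    refine hom_ext _ _ (fun i => ?_) (fun i => ?_)
    · rw [AlgHom.comp_apply, F.negHom_X, negHom, substAlgHom_apply, F.neg_neg]
      exact X_mem_mx i
    · rw [AlgHom.comp_apply, F.negHom_X, negHom, substAlgHom_apply, F.neg_neg]
      rfl
  exact DFunLike.congr_fun h f

/-- Multiplication by two in coordinates. -/
noncomputable def two (i : Fin g) : MvPowerSeries (Fin g) k :=
  F.sm (fun i => (X i : MvPowerSeries (Fin g) k)) (fun i => X i) i

theorem pt_two : Pt (Fin g) F.two := F.pt_sm pt_X pt_X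

theorem twoHom_X (i : Fin g) : F.twoHom (X i) = F.two i := substAlgHom_X _ _

/-- `F(u, v) - F(u', v')` lies in any ideal containing the components of `u - u'`, `v - v'`. -/
theorem sm_sub_mem {u v u' v' : Fin g → MvPowerSeries (Fin g) k} (hu : Pt _ u) (hv : Pt _ v)
    (hu' : Pt _ u') (hv' : Pt _ v') (J : Ideal (MvPowerSeries (Fin g) k))
    (h1 : ∀ i, u i - u' i ∈ J) (h2 : ∀ i, v i - v' i ∈ J) (i : Fin g) :
    F.sm u v i - F.sm u' v' i ∈ J := by
  have := sub_mem_of_X (substAlgHom (R := k) (hasSubst_elim hu hv))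
    (substAlgHom (R := k) (hasSubst_elim hu' hv')) ?_ ?_ J ?_ (F.add i)
  · rw [substAlgHom_apply, substAlgHom_apply] at this
    exact this
  · rintro (j | j)
    · rw [substAlgHom_X, mem_mx_iff]; exact hu j
    · rw [substAlgHom_X, mem_mx_iff]; exact hv j
  · rintro (j | j)
    · rw [substAlgHom_X, mem_mx_iff]; exact hu' j
    · rw [substAlgHom_X, mem_mx_iff]; exact hv' j
  · rintro (j | j)
    · rw [substAlgHom_X, substAlgHom_X]; exact h1 j
    · rw [substAlgHom_X, substAlgHom_X]; exact h2 j

theorem span_neg_sub_X :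
    Ideal.span (Set.range fun i => F.neg i - X i) = Ideal.span (Set.range F.two) := by
  apply le_antisymm
  · rw [Ideal.span_le]
    rintro _ ⟨i, rfl⟩
    have h1 : F.sm (fun _ => 0) F.neg = F.neg := F.zero_sm F.constantCoeff_neg
    have h2 : F.sm F.two F.neg = fun i => X i := by
      have : F.two = F.sm (fun i => (X i : MvPowerSeries (Fin g) k)) (fun i => X i) := rfl
      rw [this, F.sm_assoc pt_X pt_X F.constantCoeff_neg, F.sm_X_neg, F.sm_zero pt_X]
    have h3 := F.sm_sub_mem pt_zero F.constantCoeff_neg F.pt_two F.constantCoeff_neg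
      (Ideal.span (Set.range F.two)) (fun i => by
        rw [zero_sub, neg_mem_iff]
        exact Ideal.subset_span ⟨i, rfl⟩)
      (fun i => by rw [sub_self]; exact Ideal.zero_mem _) i
    rw [h1, h2] at h3
    exact h3
  · rw [Ideal.span_le]
    rintro _ ⟨i, rfl⟩
    have h3 := F.sm_sub_mem pt_X pt_X pt_X F.constantCoeff_neg
      (Ideal.span (Set.range fun i => F.neg i - X i))
      (fun i => by rw [sub_self]; exact Ideal.zero_mem _)
      (fun i => by
        rw [← neg_mem_iff, neg_sub]
        exact Ideal.subset_span ⟨i, rfl⟩) i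
    rw [F.sm_X_neg, sub_zero] at h3
    exact h3

variable [CharP k 2]

theorem two_eq (i : Fin g) : F.two i = sq (half (F.two i)) := by
  refine eq_sq_half _ fun j => ?_
  have h1 : F.two i = rename (Sum.elim id id) (F.add i) := by
    rw [rename_eq_subst]
    change subst _ _ = _
    congr 1
    ext1 (j | j) <;> rfl
  have h2 : rename Sum.swap (F.add i) = F.add i := by
    rw [rename_eq_subst]
    conv_rhs => rw [← F.add_comm i]
    congr 1
    ext1 (j | j) <;> rfl
  ext d
  rw [coeff_pderiv, map_zero]
  by_cases h : 2 ∣ (d + Finsupp.single j 1 : Fin g →₀ ℕ) j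
  · rw [Finsupp.add_apply, Finsupp.single_eq_same] at h
    obtain ⟨m, hm⟩ := h
    have h3 : ((d j + 1 : ℕ) : k) = 0 := by
      rw [hm, Nat.cast_mul, Nat.cast_ofNat, CharTwo.two_eq_zero, zero_mul]
    rw [Nat.cast_add, Nat.cast_one] at h3
    rw [h3, mul_zero]
  · rw [h1, coeff_diag_eq_zero (F.add i) h2 _ j h, zero_mul]

/-- The datum attached to a formal group law whose multiplication by two is an isogeny. -/
noncomputable def datum (h : F.TwoIsogeny) : Datum (Fin g) k where
  sg := F.negHom
  sg_X i := by rw [F.negHom_X, mem_mx_iff]; exact F.constantCoeff_neg i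
  sg_sg := F.negHom_negHom
  v i := half (F.two i)
  v_mem i := by
    rw [mem_mx_iff]
    have := F.pt_two i
    rw [F.two_eq i, constantCoeff_expand] at this
    exact this
  span_eq := by
    have h1 : (fun i => F.negHom (X i) + X i) = fun i => F.neg i - X i := by
      ext1 i; rw [F.negHom_X, sub_eq_add']
    have h2 : (fun i => sq (half (F.two i))) = F.two := by
      ext1 i; exact (F.two_eq i).symm
    rw [h1, h2, F.span_neg_sub_X]
  qr := by
    have h2 : (fun i => sq (half (F.two i))) =
        fun i => (F.twoHom : MvPowerSeries (Fin g) k →+* MvPowerSeries (Fin g) k) (X i) := by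
      ext1 i
      rw [← F.two_eq i]
      exact (F.twoHom_X i).symm
    rw [h2]
    exact QR.of_finite_flat _ h.1 h.2 QR_X

theorem finrank_cotangentSpace (h : F.TwoIsogeny) :
    Module.finrank (IsLocalRing.ResidueField (fixedRing F.negHom))
      (IsLocalRing.CotangentSpace (fixedRing F.negHom)) = 2 ^ g - 1 := by
  have := (F.datum h).finrank_cotangentSpace
  rwa [Fintype.card_fin] at this

end CommFormalGroupLaw

end Pool.Agent.Kummer
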