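import Pool.Agent.Kummer.Core

/-!
# Invariants as sums of power series in the norms of the variables and of traces
-/

set_option autoImplicit false
set_option linter.unusedSectionVars false

namespace Pool.Agent.Kummer

open MvPowerSeries

variable {σ : Type*} [Fintype σ] [DecidableEq σ] {k : Type*} [Field k] [CharP k 2]

theorem sum_mem_mul {x : σ → MvPowerSeries σ k} (hx : QR x)
    (hle : Ideal.span (Set.range x) ≤ mx σ k) (r : σ → MvPowerSeries σ k)
    (hr : ∑ i, r i * x i ∈ mx σ k * Ideal.span (Set.range x)) (i : σ) : r i ∈ mx σ k := by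
  obtain ⟨m, hm, hm'⟩ : ∃ m : σ → MvPowerSeries σ k, (∀ i, m i ∈ mx σ k) ∧
      ∑ i, r i * x i = ∑ i, m i * x i := by
    have key : ∀ f ∈ mx σ k * Ideal.span (Set.range x), ∃ m : σ → MvPowerSeries σ k,
        (∀ i, m i ∈ mx σ k) ∧ f = ∑ i, m i * x i := by
      intro f hf
      induction hf using Submodule.mul_induction_on' with
      | mem_mul_mem a ha b hb =>
        obtain ⟨c, rfl⟩ := (Ideal.mem_span_range_iff_exists_fun).mp hb
        refine ⟨fun i => a * c i, fun i => Ideal.mul_mem_right _ _ ha, ?_⟩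
        rw [Finset.mul_sum]
        exact Finset.sum_congr rfl fun i _ => by ring
      | add a _ b _ ha hb =>
        obtain ⟨m, hm, rfl⟩ := ha
        obtain ⟨m', hm', rfl⟩ := hb
        refine ⟨fun i => m i + m' i, fun i => Ideal.add_mem _ (hm i) (hm' i), ?_⟩
        rw [← Finset.sum_add_distrib]
        exact Finset.sum_congr rfl fun i _ => by ring
    exact key _ hr
  have h3 : evn x 1 (fun α => ∑ i, if α = Finsupp.single i 1 then r i - m i else 0) =
      ∑ i, (r i - m i) * x i := by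
    rw [evn]
    simp only [Finset.sum_mul]
    rw [Finset.sum_comm]
    refine Finset.sum_congr rfl fun i _ => ?_
    rw [Finset.sum_eq_single (Finsupp.single i 1)]
    · rw [if_pos rfl, mon_single]
    · intro α _ hα
      rw [if_neg hα, zero_mul]
    · intro h
      exact absurd (mem_dg.mpr (Finsupp.degree_single _ _)) h
  have h4 : evn x 1 (fun α => ∑ i, if α = Finsupp.single i 1 then r i - m i else 0) ∈
      Ideal.span (Set.range x) ^ (1 + 1) := by
    rw [h3]
    simp only [sub_mul, Finset.sum_sub_distrib]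
    rw [hm', sub_self]
    exact Ideal.zero_mem _
  have h5 := hx 1 _ h4 (Finsupp.single i 1) (Finsupp.degree_single _ _)
  rw [Finset.sum_eq_single i] at h5
  · rw [if_pos rfl] at h5
    have : r i = (r i - m i) + m i := by ring
    rw [this]
    exact Ideal.add_mem _ (hle h5) (hm i)
  · intro j _ hj
    rw [if_neg]
    intro h
    rw [Finsupp.single_left_inj one_ne_zero] at h
    exact hj h.symm
  · intro h; exact absurd (Finset.mem_univ _) h

namespace Datum

variable (D : Datum σ k)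

/-- The norm of the variable `X i`. -/
noncomputable def y (i : σ) : MvPowerSeries σ k := X i * D.sg (X i)

theorem y_mem (i : σ) : D.y i ∈ mx σ k := Ideal.mul_mem_right _ _ (X_mem_mx i)

theorem hasSubst_y : HasSubst D.y :=
  hasSubst_of_constantCoeff_zero fun i => (mem_mx_iff _).mp (D.y_mem i)

/-- Substitution of the norms of the variables. -/
noncomputable def psi : MvPowerSeries σ k →ₐ[k] MvPowerSeries σ k := substAlgHom D.hasSubst_y

theorem psi_X (i : σ) : D.psi (X i) = D.y i := substAlgHom_X _ _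

theorem sg_y (i : σ) : D.sg (D.y i) = D.y i := by
  rw [y, map_mul, D.sg_sg, mul_comm]

theorem sg_psi (f : MvPowerSeries σ k) : D.sg (D.psi f) = D.psi f := by
  have h : D.sg.comp D.psi = D.psi := by
    refine hom_ext _ _ (fun i => ?_) (fun i => ?_)
    · rw [AlgHom.comp_apply, D.psi_X, D.sg_y]; exact D.y_mem i
    · rw [AlgHom.comp_apply, D.psi_X, D.sg_y]
  exact DFunLike.congr_fun h f

theorem dl_psi (f : MvPowerSeries σ k) : D.dl (D.psi f) = 0 := by
  rw [D.dl_eq_zero_iff, D.sg_psi]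

theorem psi_sub_sq (f : MvPowerSeries σ k) : D.psi f - sq f ∈ mx σ k * D.I := by
  refine sub_mem_of_X _ _ ?_ ?_ _ ?_ f
  · intro i; rw [D.psi_X]; exact D.y_mem i
  · intro i; rw [expand_X, pow_two]; exact Ideal.mul_mem_left _ _ (X_mem_mx i)
  · intro i
    rw [D.psi_X, expand_X, y]
    have h : X i * D.sg (X i) - X i ^ 2 = X i * D.a i := by
      rw [a]
      linear_combination (-X i ^ 2 : MvPowerSeries σ k) * two_eq_zero' (σ := σ) (k := k)
    rw [h]
    exact Ideal.mul_mem_mul (X_mem_mx i) (D.a_mem i)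

theorem psi_sub_sq' (f : MvPowerSeries σ k) : D.psi f - sq f ∈ D.I := by
  have h : mx σ k * D.I ≤ D.I := Ideal.mul_le_right
  exact h (D.psi_sub_sq f)

theorem sq_mem_iff (f : MvPowerSeries σ k) : sq f ∈ mx σ k ↔ f ∈ mx σ k := by
  rw [mem_mx_iff, mem_mx_iff, constantCoeff_expand]

theorem psi_mem_iff (f : MvPowerSeries σ k) : D.psi f ∈ mx σ k ↔ f ∈ mx σ k := by
  rw [← sq_mem_iff f]
  have h := D.I_le (D.psi_sub_sq' f)
  constructor
  · intro h1
    have := Ideal.sub_mem _ h1 h
    rwa [sub_sub_cancel] at this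
  · intro h1
    have := Ideal.add_mem _ h h1
    rwa [sub_add_cancel] at this

theorem exists_psi_add_dl {f : MvPowerSeries σ k} (h0 : D.dl f = 0) :
    ∃ c h, f = D.psi c + D.dl h := by
  obtain ⟨c, hc⟩ := D.exists_sub_sq_mem h0
  have h1 : f - D.psi c ∈ D.I := by
    have := Ideal.sub_mem _ hc (D.psi_sub_sq' c)
    rwa [sub_sub_sub_cancel_right] at this
  obtain ⟨h, hh⟩ := D.exists_dl_eq h1 (by rw [D.dl_sub, h0, D.dl_psi, sub_zero])
  exact ⟨c, h, by rw [← hh]; ring⟩

theorem exists_sum_of_psi_mem {c : MvPowerSeries σ k} (hc : D.psi c ∈ D.I) :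
    ∃ r : σ → MvPowerSeries σ k, c = ∑ i, r i * D.v i := by
  have h1 : sq c ∈ D.I := by
    have := Ideal.sub_mem _ hc (D.psi_sub_sq' c)
    rwa [sub_sub_cancel] at this
  rw [D.I_eq] at h1
  obtain ⟨r, hr⟩ := (Ideal.mem_span_range_iff_exists_fun).mp h1
  refine ⟨fun i => half (r i), ?_⟩
  rw [← half_sq c, ← hr, half_sum]
  refine Finset.sum_congr rfl fun i _ => ?_
  rw [mul_comm, half_sq_mul, mul_comm]

theorem psi_v_mem (i : σ) : D.psi (D.v i) ∈ D.I := by
  have := Ideal.add_mem _ (D.psi_sub_sq' (D.v i)) (D.v_mem_I i)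
  rwa [sub_add_cancel] at this

/-- A series whose trace is the series `v i` in the norms. -/
noncomputable def w (i : σ) : MvPowerSeries σ k :=
  (D.exists_dl_eq (D.psi_v_mem i) (D.dl_psi _)).choose

theorem dl_w (i : σ) : D.dl (D.w i) = D.psi (D.v i) :=
  (D.exists_dl_eq (D.psi_v_mem i) (D.dl_psi _)).choose_spec.symm

theorem qq_le_span_y : qq σ k ≤ Ideal.span (Set.range D.y) := by
  refine Submodule.le_of_le_smul_of_le_jacobson_bot (I := mx σ k) ?_ ?_ ?_
  · exact Submodule.fg_span (Set.finite_range _)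
  · rw [mx_eq]
    exact IsLocalRing.maximalIdeal_le_jacobson _
  · rw [qq, Ideal.span_le]
    rintro _ ⟨i, rfl⟩
    change X i ^ 2 ∈ _
    have h : (X i ^ 2 : MvPowerSeries σ k) = D.y i - X i * D.a i := by
      rw [a, y]
      linear_combination (X i ^ 2 : MvPowerSeries σ k) * two_eq_zero' (σ := σ) (k := k)
    rw [h]
    refine Submodule.sub_mem _ (Submodule.mem_sup_left (Ideal.subset_span ⟨i, rfl⟩))
      (Submodule.mem_sup_right ?_)
    rw [smul_eq_mul]
    exact Ideal.mul_mem_mul (X_mem_mx i) (D.I_le_qq (D.a_mem i))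

theorem y_mem_qq (i : σ) : D.y i ∈ qq σ k := by
  have h : D.y i = X i ^ 2 + X i * D.a i := by
    rw [a, y]
    linear_combination (-X i ^ 2 : MvPowerSeries σ k) * two_eq_zero' (σ := σ) (k := k)
  rw [h]
  exact Ideal.add_mem _ (Ideal.subset_span ⟨i, rfl⟩)
    (Ideal.mul_mem_left _ _ (D.I_le_qq (D.a_mem i)))

theorem psi_mem_qq {c : MvPowerSeries σ k} (hc : c ∈ mx σ k) : D.psi c ∈ qq σ k := by
  have h1 : (mx σ k).map D.psi ≤ qq σ k := by
    rw [mx, Ideal.map_span, Ideal.span_le]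
    rintro _ ⟨_, ⟨i, rfl⟩, rfl⟩
    rw [D.psi_X]
    exact D.y_mem_qq i
  exact h1 (Ideal.mem_map_of_mem _ hc)

/-- The trace of `u` lies in `mx * I` if and only if the linear part of `u` vanishes. -/
theorem dl_mem_mul_iff (u : MvPowerSeries σ k) :
    D.dl u ∈ mx σ k * D.I ↔ ∀ i, pd i u ∈ mx σ k := by
  have herr : D.err u ∈ mx σ k * D.I := by
    have := D.err_mem u
    rw [pow_two] at this
    exact Ideal.mul_mono_left D.I_le this
  rw [D.dl_eq]
  constructor
  · intro h
    have h1 := Ideal.sub_mem _ h herr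
    rw [add_sub_cancel_right] at h1
    exact sum_mem_mul D.qr_a D.I_le _ h1
  · intro h
    exact Ideal.add_mem _ (Ideal.sum_mem _ fun i _ => Ideal.mul_mem_mul (h i) (D.a_mem i)) herr

theorem mem_of_sum_psi {c : σ → MvPowerSeries σ k}
    (h : ∑ i, D.psi (c i) * D.psi (D.v i) ∈ mx σ k * D.I) (i : σ) : c i ∈ mx σ k := by
  have h1 : ∑ i, D.psi (c i) * sq (D.v i) ∈ mx σ k * D.I := by
    have h2 : ∑ i, D.psi (c i) * sq (D.v i) = ∑ i, D.psi (c i) * D.psi (D.v i) -
        ∑ i, D.psi (c i) * (D.psi (D.v i) - sq (D.v i)) := by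
      rw [← Finset.sum_sub_distrib]
      exact Finset.sum_congr rfl fun i _ => by ring
    rw [h2]
    exact Ideal.sub_mem _ h (Ideal.sum_mem _ fun i _ => Ideal.mul_mem_left _ _ (D.psi_sub_sq _))
  have h3 := D.I_le
  rw [D.I_eq] at h1 h3
  have h2 := sum_mem_mul D.qr h3 _ h1 i
  exact (D.psi_mem_iff _).mp h2

/-- Every trace is, up to a series in the norms, a trace in `mx * I`. -/
theorem exists_adjust {f : MvPowerSeries σ k} (h0 : D.dl f = 0) :
    ∃ c u, f = D.psi c + D.dl u ∧ ∀ i, pd i u ∈ mx σ k := by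
  obtain ⟨c, u, rfl⟩ := D.exists_psi_add_dl h0
  have h1 := D.dl_mem u
  rw [D.I_eq] at h1
  obtain ⟨r, hr⟩ := (Ideal.mem_span_range_iff_exists_fun).mp h1
  let l : σ → MvPowerSeries σ k := fun i => C (constantCoeff (r i))
  have hl : ∀ i, D.dl (l i) = 0 := fun i => D.dl_C _
  have hl2 : ∀ i, D.psi (l i) = l i := fun i => D.psi.commutes _
  refine ⟨c + ∑ i, l i * D.v i, u - ∑ i, l i * D.w i, ?_, ?_⟩
  · rw [map_add, map_sum, D.dl_sub, D.dl_sum]
    have h2 : ∑ i, D.dl (l i * D.w i) = ∑ i, D.psi (l i * D.v i) := by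
      refine Finset.sum_congr rfl fun i _ => ?_
      rw [D.dl_mul_of' _ _ (hl i), D.dl_w, map_mul, hl2]
    rw [h2]; ring
  · rw [← D.dl_mem_mul_iff, D.dl_sub, D.dl_sum, ← hr]
    have h2 : ∑ i, r i * sq (D.v i) - ∑ i, D.dl (l i * D.w i) =
        ∑ i, (r i - l i) * sq (D.v i) - ∑ i, l i * (D.psi (D.v i) - sq (D.v i)) := by
      rw [← Finset.sum_sub_distrib, ← Finset.sum_sub_distrib]
      refine Finset.sum_congr rfl fun i _ => ?_
      rw [D.dl_mul_of' _ _ (hl i), D.dl_w]; ring
    rw [h2]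
    refine Ideal.sub_mem _ (Ideal.sum_mem _ fun i _ => Ideal.mul_mem_mul ?_ (D.v_mem_I i))
      (Ideal.sum_mem _ fun i _ => Ideal.mul_mem_left _ _ (D.psi_sub_sq _))
    rw [mem_mx_iff, map_sub, constantCoeff_C, sub_self]

end Datum

end Pool.Agent.Kummer
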