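import Mathlib

/-!
# Power series in finitely many variables over a field: ideals, closedness, continuity
-/

set_option autoImplicit false

namespace Pool.Agent.Kummer

open MvPowerSeries

set_option linter.unusedSectionVars false

section Division

variable {σ : Type*} [Fintype σ] {k : Type*} [CommRing k]

/-- The power series with given coefficients. -/
def ofCoeff (φ : (σ →₀ ℕ) → k) : MvPowerSeries σ k := φ

@[simp] theorem coeff_ofCoeff (φ : (σ →₀ ℕ) → k) (d : σ →₀ ℕ) : coeff d (ofCoeff φ) = φ d := rfl

theorem exists_sum_X_pow_mul (e : ℕ) (f : MvPowerSeries σ k)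
    (hf : ∀ d : σ →₀ ℕ, (∀ i, d i < e) → coeff d f = 0) :
    ∃ F : σ → MvPowerSeries σ k, f = ∑ i, X i ^ e * F i ∧
      ∀ i d, coeff d (F i) = 0 ∨ coeff d (F i) = coeff (d + Finsupp.single i e) f := by
  classical
  let Q : σ → (σ →₀ ℕ) → Prop := fun i d => ∃ h : (∃ j, e ≤ d j), h.choose = i
  refine ⟨fun i => ofCoeff fun d => if Q i (d + Finsupp.single i e) then
    coeff (d + Finsupp.single i e) f else 0, ?_, ?_⟩
  · ext d
    rw [map_sum]
    have h1 : ∀ i, coeff d (X i ^ e * ofCoeff (fun d => if Q i (d + Finsupp.single i e) then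
        coeff (d + Finsupp.single i e) f else 0)) =
        if Q i d then coeff d f else 0 := by
      intro i
      rw [X_pow_eq, coeff_monomial_mul]
      by_cases hd : e ≤ d i
      · have hle : Finsupp.single i e ≤ d := by
          simpa [Finsupp.single_le_iff] using hd
        rw [if_pos hle, one_mul, coeff_ofCoeff, tsub_add_cancel_of_le hle]
      · have hle : ¬ Finsupp.single i e ≤ d := by
          simpa [Finsupp.single_le_iff] using hd
        rw [if_neg hle, if_neg]
        rintro ⟨h, rfl⟩
        exact hd h.choose_spec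
    rw [Finset.sum_congr rfl (fun i _ => h1 i)]
    by_cases hex : ∃ j, e ≤ d j
    · rw [Finset.sum_eq_single hex.choose]
      · rw [if_pos ⟨hex, rfl⟩]
      · intro j _ hj
        rw [if_neg]
        rintro ⟨h, rfl⟩
        exact hj rfl
      · intro h
        exact absurd (Finset.mem_univ _) h
    · rw [Finset.sum_eq_zero]
      · exact hf d (fun i => by push Not at hex; exact hex i)
      · intro j _
        rw [if_neg]
        rintro ⟨h, _⟩
        exact hex h
  · intro i d
    by_cases h : Q i (d + Finsupp.single i e)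
    · right
      exact if_pos h
    · left
      exact if_neg h

theorem mem_span_X_pow_iff (e : ℕ) (f : MvPowerSeries σ k) :
    f ∈ Ideal.span (Set.range fun i : σ => (X i ^ e : MvPowerSeries σ k)) ↔
      ∀ d : σ →₀ ℕ, (∀ i, d i < e) → coeff d f = 0 := by
  classical
  constructor
  · intro h d hd
    obtain ⟨c, rfl⟩ := (Ideal.mem_span_range_iff_exists_fun).mp h
    rw [map_sum]
    refine Finset.sum_eq_zero fun i _ => ?_
    rw [mul_comm, X_pow_eq, coeff_monomial_mul, if_neg]
    simpa [Finsupp.single_le_iff] using hd i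
  · intro h
    obtain ⟨F, hF, _⟩ := exists_sum_X_pow_mul e f h
    rw [hF]
    refine Ideal.sum_mem _ fun i _ => Ideal.mul_mem_right _ _ (Ideal.subset_span ⟨i, rfl⟩)

/-- The ideal generated by the variables. -/
noncomputable def mx (σ k : Type*) [CommRing k] : Ideal (MvPowerSeries σ k) :=
  Ideal.span (Set.range X)

theorem X_mem_mx (i : σ) : (X i : MvPowerSeries σ k) ∈ mx σ k := Ideal.subset_span ⟨i, rfl⟩

theorem mem_mx_pow_iff (N : ℕ) (f : MvPowerSeries σ k) :
    f ∈ mx σ k ^ N ↔ ∀ d : σ →₀ ℕ, d.degree < N → coeff d f = 0 := by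
  classical
  constructor
  · induction N generalizing f with
    | zero => intro _ d hd; exact absurd hd (Nat.not_lt_zero _)
    | succ N ih =>
      intro h d hd
      rw [pow_succ'] at h
      revert d
      induction h using Submodule.mul_induction_on' with
      | mem_mul_mem a ha b hb =>
        intro d hd
        obtain ⟨c, rfl⟩ := (Ideal.mem_span_range_iff_exists_fun).mp ha
        rw [Finset.sum_mul, map_sum]
        refine Finset.sum_eq_zero fun i _ => ?_
        rw [mul_comm (c i), mul_assoc, X, coeff_monomial_mul]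
        split_ifs with hle
        · rw [one_mul]
          rw [coeff_mul]
          refine Finset.sum_eq_zero fun p hp => ?_
          rw [Finset.HasAntidiagonal.mem_antidiagonal] at hp
          have hdeg : p.2.degree < N := by
            have h1 : (d - Finsupp.single i 1 + Finsupp.single i 1).degree = d.degree := by
              rw [tsub_add_cancel_of_le hle]
            rw [map_add, Finsupp.degree_single, ← hp, map_add] at h1
            lia
          rw [ih b hb p.2 hdeg, mul_zero]
        · rfl
      | add x _ y _ hx hy =>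
        intro d hd
        rw [map_add, hx d hd, hy d hd, add_zero]
  · induction N generalizing f with
    | zero => intro _; simp
    | succ N ih =>
      intro h
      obtain ⟨F, hF, hF2⟩ := exists_sum_X_pow_mul 1 f (fun d hd => h d (by
        have : d = 0 := by
          ext i
          simpa using hd i
        rw [this]; simp))
      rw [hF, pow_succ']
      refine Ideal.sum_mem _ fun i _ => ?_
      rw [pow_one]
      refine Ideal.mul_mem_mul (X_mem_mx i) (ih _ fun d hd => ?_)
      rcases hF2 i d with h0 | h1
      · exact h0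
      · rw [h1]
        refine h _ ?_
        rw [map_add, Finsupp.degree_single]
        lia

theorem mem_mx_iff (f : MvPowerSeries σ k) : f ∈ mx σ k ↔ constantCoeff f = 0 := by
  have := mem_mx_pow_iff 1 f
  rw [pow_one] at this
  rw [this]
  constructor
  · intro h
    exact h 0 (by simp)
  · intro h d hd
    have : d = 0 := by
      rw [Nat.lt_one_iff] at hd
      exact (Finsupp.degree_eq_zero_iff d).mp hd
    rw [this]
    exact h

/-- Truncation: every series is a polynomial plus an element of the `N`-th power of the ideal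
of the variables. -/
theorem exists_poly_add (N : ℕ) (f : MvPowerSeries σ k) :
    ∃ p : MvPolynomial σ k, f - p ∈ mx σ k ^ N := by
  classical
  refine ⟨truncTotal N f, ?_⟩
  rw [mem_mx_pow_iff]
  intro d hd
  rw [map_sub, MvPolynomial.coeff_coe, coeff_truncTotal _ hd, sub_self]

theorem eq_zero_of_forall_mem (f : MvPowerSeries σ k) (h : ∀ N, f ∈ mx σ k ^ N) : f = 0 := by
  ext d
  exact (mem_mx_pow_iff (d.degree + 1) f).mp (h _) d (by lia)

end Division

section Local

variable {σ : Type*} [Fintype σ] {k : Type*} [Field k]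

theorem isUnit_iff (f : MvPowerSeries σ k) : IsUnit f ↔ f ∉ mx σ k := by
  rw [mem_mx_iff, MvPowerSeries.isUnit_iff_constantCoeff, isUnit_iff_ne_zero]

theorem mx_eq : mx σ k = IsLocalRing.maximalIdeal (MvPowerSeries σ k) := by
  ext f
  rw [IsLocalRing.mem_maximalIdeal, mem_nonunits_iff, isUnit_iff, not_not]

/-- Ideals of the power series ring are closed. -/
theorem mem_of_forall_exists (J : Ideal (MvPowerSeries σ k)) (f : MvPowerSeries σ k)
    (h : ∀ N, ∃ j ∈ J, f - j ∈ mx σ k ^ N) : f ∈ J := by
  have key := Ideal.iInf_pow_smul_eq_bot_of_isLocalRing (M := MvPowerSeries σ k ⧸ J)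
    (IsLocalRing.maximalIdeal (MvPowerSeries σ k)) (Ideal.IsPrime.ne_top inferInstance)
  rw [← mx_eq] at key
  have hf : (Ideal.Quotient.mk J f) ∈ (⊥ : Submodule (MvPowerSeries σ k) (MvPowerSeries σ k ⧸ J)) := by
    rw [← key, Submodule.mem_iInf]
    intro N
    obtain ⟨j, hj, hjN⟩ := h N
    have h1 : (Ideal.Quotient.mk J f) = (f - j) • (1 : MvPowerSeries σ k ⧸ J) := by
      have h2 : (f - j) • (1 : MvPowerSeries σ k ⧸ J) = Ideal.Quotient.mk J (f - j) := by
        rw [← map_one (Ideal.Quotient.mk J), ← Ideal.Quotient.mk_eq_mk, ← Submodule.Quotient.mk_smul,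
          smul_eq_mul, mul_one, Ideal.Quotient.mk_eq_mk]
      rw [h2, map_sub, Ideal.Quotient.eq_zero_iff_mem.mpr hj, sub_zero]
    rw [h1]
    exact Submodule.smul_mem_smul hjN trivial
  rw [Submodule.mem_bot] at hf
  exact Ideal.Quotient.eq_zero_iff_mem.mp hf

end Local

section Hom

variable {σ τ : Type*} [Fintype σ] [Fintype τ] {k : Type*} [Field k]

theorem map_mem_mx_pow (α : MvPowerSeries τ k →ₐ[k] MvPowerSeries σ k)
    (hα : ∀ i, α (X i) ∈ mx σ k) {N : ℕ} {f : MvPowerSeries τ k} (hf : f ∈ mx τ k ^ N) :
    α f ∈ mx σ k ^ N := by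
  have h1 : (mx τ k).map α ≤ mx σ k := by
    rw [mx, Ideal.map_span, Ideal.span_le]
    rintro _ ⟨_, ⟨i, rfl⟩, rfl⟩
    exact hα i
  have h2 : (mx τ k ^ N).map α ≤ mx σ k ^ N := by
    rw [Ideal.map_pow]
    exact Ideal.pow_right_mono h1 N
  exact h2 (Ideal.mem_map_of_mem _ hf)

/-- Two continuous homomorphisms which agree on the variables modulo an ideal agree modulo
this ideal. -/
theorem sub_mem_of_X (α β : MvPowerSeries τ k →ₐ[k] MvPowerSeries σ k)
    (hα : ∀ i, α (X i) ∈ mx σ k) (hβ : ∀ i, β (X i) ∈ mx σ k) (J : Ideal (MvPowerSeries σ k))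
    (hJ : ∀ i, α (X i) - β (X i) ∈ J) (f : MvPowerSeries τ k) : α f - β f ∈ J := by
  refine mem_of_forall_exists J _ fun N => ?_
  obtain ⟨p, hp⟩ := exists_poly_add N f
  refine ⟨α p - β p, ?_, ?_⟩
  · induction p using MvPolynomial.induction_on generalizing f with
    | C a =>
      have : ((MvPolynomial.C a : MvPolynomial τ k) : MvPowerSeries τ k) =
          algebraMap k (MvPowerSeries τ k) a := by
        rw [MvPolynomial.coe_C]; rfl
      rw [this, α.commutes, β.commutes, sub_self]
      exact J.zero_mem
    | add p q hp' hq' =>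
      rw [MvPolynomial.coe_add, map_add, map_add, add_sub_add_comm]
      exact J.add_mem (hp' p (by rw [sub_self]; exact Ideal.zero_mem _))
        (hq' q (by rw [sub_self]; exact Ideal.zero_mem _))
    | mul_X p i hp' =>
      rw [MvPolynomial.coe_mul, MvPolynomial.coe_X, map_mul, map_mul]
      have h1 := hp' p (by rw [sub_self]; exact Ideal.zero_mem _)
      have : α p * α (X i) - β p * β (X i) =
          (α p - β p) * α (X i) + β p * (α (X i) - β (X i)) := by ring
      rw [this]
      exact J.add_mem (Ideal.mul_mem_right _ _ h1) (Ideal.mul_mem_left _ _ (hJ i))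
  · have : α f - β f - (α p - β p) = α (f - p) - β (f - p) := by
      rw [map_sub, map_sub]; ring
    rw [this]
    exact Ideal.sub_mem _ (map_mem_mx_pow α hα hp) (map_mem_mx_pow β hβ hp)

/-- Continuous homomorphisms are determined by the images of the variables. -/
theorem hom_ext (α β : MvPowerSeries τ k →ₐ[k] MvPowerSeries σ k)
    (hα : ∀ i, α (X i) ∈ mx σ k) (h : ∀ i, α (X i) = β (X i)) : α = β := by
  ext1 f
  have := sub_mem_of_X α β hα (fun i => by rw [← h i]; exact hα i) ⊥
    (fun i => by rw [h i, sub_self]; exact Ideal.zero_mem _) f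
  rw [Ideal.mem_bot] at this
  exact sub_eq_zero.mp this

end Hom

end Pool.Agent.Kummer
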